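import Pool.Agent.X131.SY.Part

/-! Symmetry of the lifted circuit. -/

set_option autoImplicit false

namespace Pool.Agent.X131.SY

open Finset Pool.Agent.W893.SY

variable {k t s : ℕ}

/-- all vertices are in the blocks -/
def emb (k t : ℕ) : Fin (k * t) × Fin 5 ↪ Fin (k * t * 5) := finProdFinEquiv.toEmbedding

theorem vx_eq (i : Fin k) (j : Fin t) (p : Fin 5) :
    vx i j p = emb k t (finProdFinEquiv (i, j), p) := rfl

theorem perm_vx (γ : Fin (k * t) → Equiv.Perm (Fin 5)) (i : Fin k) (j : Fin t) (p : Fin 5) :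
    blockPerm (emb k t) γ (vx i j p) = vx i j (γ (finProdFinEquiv (i, j)) p) := by
  rw [vx_eq, blockPerm_apply, vx_eq]

/-- the permutations of the letters -/
def down (γ : Fin (k * t) → Equiv.Perm (Fin 5)) (i : Fin k × Fin t) : Equiv.Perm (Fin 5) :=
  γ (finProdFinEquiv i)

theorem cov_map (γ : Fin (k * t) → Equiv.Perm (Fin 5)) (z : Sym2 (Vtx k t))
    (e : Sym2 (Fin (k * t * 5))) :
    Cov (z.map (wordMap (down γ))) (e.map (blockPerm (emb k t) γ)) ↔ Cov z e := by
  unfold Cov
  apply and_congr
  · rw [Sym2.isDiag_map (blockPerm (emb k t) γ).injective]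
  · constructor
    · intro h a ha
      obtain ⟨u', hu', j, hj⟩ := h (blockPerm (emb k t) γ a) (Sym2.mem_map.2 ⟨a, ha, rfl⟩)
      obtain ⟨u, hu, rfl⟩ := Sym2.mem_map.1 hu'
      refine ⟨u, hu, j, ?_⟩
      apply (blockPerm (emb k t) γ).injective
      rw [hj, perm_vx]
      rfl
    · intro h a' ha'
      obtain ⟨a, ha, rfl⟩ := Sym2.mem_map.1 ha'
      obtain ⟨u, hu, j, hj⟩ := h a ha
      refine ⟨wordMap (down γ) u, Sym2.mem_map.2 ⟨u, hu, rfl⟩, j, ?_⟩
      rw [hj, perm_vx]
      rfl

theorem same_map (γ : Fin k × Fin t → Equiv.Perm (Fin 5)) (z : Sym2 (Vtx k t)) :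
    Same (z.map (wordMap γ)) ↔ Same z := by
  unfold Same
  refine exists_congr fun i => ?_
  constructor
  · intro h u hu
    exact h (wordMap γ u) (Sym2.mem_map.2 ⟨u, hu, rfl⟩)
  · intro h u' hu'
    obtain ⟨u, hu, rfl⟩ := Sym2.mem_map.1 hu'
    exact h u hu

theorem fz_map (γ : Fin k × Fin t → Equiv.Perm (Fin 5)) (b : Bool) (z : Sym2 (Vtx k t)) :
    fz b (z.map (wordMap γ)) = fz b z := by
  funext M
  unfold fz
  rw [same_map]

/-- a permutation of the vertices acts on pairs -/
def pairPerm {V : Type} (σ : Equiv.Perm V) : Equiv.Perm (Sym2 V) where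
  toFun := Sym2.map σ
  invFun := Sym2.map σ.symm
  left_inv := by
    intro z
    rw [Sym2.map_map]
    simp
  right_inv := by
    intro z
    rw [Sym2.map_map]
    simp

/-- the automorphism of the lifted circuit -/
noncomputable def up (γ : Fin (k * t) → Equiv.Perm (Fin 5)) (α : Equiv.Perm (Fin s)) :
    Equiv.Perm (Fin (NP k t + s)) :=
  finSumFinEquiv.symm.trans ((Equiv.sumCongr
    (en.symm.trans ((pairPerm (blockPerm (emb k t) γ)).trans en)) α).trans finSumFinEquiv)

theorem up_left (γ : Fin (k * t) → Equiv.Perm (Fin 5)) (α : Equiv.Perm (Fin s))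
    (i : Fin (NP k t)) : up γ α (Fin.castAdd s i) =
      Fin.castAdd s (en ((en.symm i).map (blockPerm (emb k t) γ))) := by
  unfold up
  simp [pairPerm]

theorem up_right (γ : Fin (k * t) → Equiv.Perm (Fin 5)) (α : Equiv.Perm (Fin s)) (g : Fin s) :
    up γ α (Fin.natAdd (NP k t) g) = Fin.natAdd (NP k t) (α g) := by
  unfold up
  simp

theorem wires_map (γ : Fin (k * t) → Equiv.Perm (Fin 5)) (α : Equiv.Perm (Fin s))
    (z : Sym2 (Vtx k t)) :
    wires s (z.map (wordMap (down γ))) = (wires s z).map (Prod.map id (up γ α)) := by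
  classical
  have h1 : (univ.filter (Cov (z.map (wordMap (down γ))))) =
      (univ.filter (Cov z)).map (pairPerm (blockPerm (emb k t) γ)).toEmbedding := by
    ext e'
    rw [mem_map]
    simp only [mem_filter, mem_univ, true_and, Equiv.coe_toEmbedding]
    constructor
    · intro h
      refine ⟨(pairPerm (blockPerm (emb k t) γ)).symm e', ?_, Equiv.apply_symm_apply _ _⟩
      rw [← cov_map γ]
      have : ((pairPerm (blockPerm (emb k t) γ)).symm e').map (blockPerm (emb k t) γ) = e' :=
        Equiv.apply_symm_apply (pairPerm (blockPerm (emb k t) γ)) e'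
      rw [this]
      exact h
    · rintro ⟨e, he, rfl⟩
      exact (cov_map γ z e).2 he
  unfold wires
  rw [h1, Finset.map_val, Multiset.map_map, Multiset.map_map]
  apply Multiset.map_congr rfl
  intro e _
  refine Prod.ext rfl ?_
  show Fin.castAdd s (en _) = up γ α (Fin.castAdd s (en e))
  rw [up_left, Equiv.symm_apply_apply]
  rfl

theorem lft_aut (C : Net (Sym2 (Vtx k t) × Bool) Bool s) (γ : Fin (k * t) → Equiv.Perm (Fin 5))
    (α : Equiv.Perm (Fin s)) (h : C.IsAut (fun l => (l.1.map (wordMap (down γ)), l.2)) α) :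
    (lft C).IsAut (fun l => (l.1.map (blockPerm (emb k t) γ), l.2)) (up γ α) := by
  refine ⟨fun g => ?_, ?_⟩
  · show lgate C (up γ α g) = Sum.map _ _ (lgate C g)
    induction g using Fin.addCases with
    | left i =>
      rw [up_left, lgate_left, lgate_left, Equiv.symm_apply_apply]
      rfl
    | right g =>
      have hg := h.1 g
      rw [up_right]
      rcases hc : C.gate g with l | ⟨w, f⟩
      · rw [hc] at hg
        rw [lgate_inl C hc, lgate_inl C hg]
        simp only [Sum.map_inr, Prod.map_apply, id]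
        rw [fz_map, wires_map γ α]
      · rw [hc] at hg
        rw [lgate_inr C hc, lgate_inr C (w := w.map (Prod.map id α)) (f := f) (by rw [hg]; rfl)]
        simp only [Sum.map_inr, Prod.map_apply, id, Multiset.map_map]
        congr 2
        apply Multiset.map_congr rfl
        intro p _
        exact Prod.ext rfl (up_right γ α p.2).symm
  · show up γ α (Fin.natAdd (NP k t) C.out) = Fin.natAdd (NP k t) C.out
    rw [up_right, h.2]

theorem lft_sym (C : Net (Sym2 (Vtx k t) × Bool) Bool s) (h : WordSym C) :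
    BlockSym (emb k t) (lft C) := by
  intro γ hγ
  obtain ⟨α, hα⟩ := h (down γ) (fun i => hγ _)
  exact ⟨_, lft_aut C γ α hα⟩

end Pool.Agent.X131.SY
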