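import Pool.Agent.X131.SY.GL

/-! Dispersers, and the gap version of the lower bound. -/

set_option autoImplicit false

namespace Pool.Agent.X131.SY.GL

open Finset Pool.Agent.W893.SY Pool.Agent.X131.SY

theorem disp {k m t M : ℕ} (hM : 0 < M) (h : 11 * (k + M) ≤ m * t) :
    ∃ pos : Fin k × Fin t → Fin M, ∀ I : Finset (Fin k), m ≤ I.card →
      15 * M ≤ 16 * (I.biUnion fun i => univ.image fun j => pos (i, j)).card := by
  classical
  by_contra hcon
  push Not at hcon
  let Bd : Finset (Fin k) × Finset (Fin M) → Finset (Fin k × Fin t → Fin M) :=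
    fun q => Fintype.piFinset (fun p => if p.1 ∈ q.1 then q.2 else univ)
  let T : Finset (Finset (Fin k) × Finset (Fin M)) :=
    univ.filter (fun q => q.1.card = m ∧ 16 * q.2.card < 15 * M)
  have hcov : (univ : Finset (Fin k × Fin t → Fin M)) ⊆ T.biUnion Bd := by
    intro pos _
    obtain ⟨I, hI, hlt⟩ := hcon pos
    obtain ⟨I', hI', hc⟩ := exists_subset_card_eq hI
    refine mem_biUnion.2 ⟨(I', I'.biUnion fun i => univ.image fun j => pos (i, j)),
      mem_filter.2 ⟨mem_univ _, hc, lt_of_le_of_lt (Nat.mul_le_mul_left 16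
        (card_le_card (biUnion_subset_biUnion_of_subset_left _ hI'))) hlt⟩,
      Fintype.mem_piFinset.2 (fun p => ?_)⟩
    split_ifs with hp
    · exact mem_biUnion.2 ⟨p.1, hp, mem_image.2 ⟨p.2, mem_univ _, rfl⟩⟩
    · exact mem_univ _
  have hcard : ∀ q ∈ T, 16 ^ (m * t) * (Bd q).card ≤ 15 ^ (m * t) * M ^ (k * t) := by
    rintro ⟨I, U⟩ hq
    obtain ⟨-, hI, hU⟩ := mem_filter.1 hq
    simp only at hI hU
    have hf : (univ.filter fun p : Fin k × Fin t => p.1 ∈ I).card = m * t := by
      have : (univ.filter fun p : Fin k × Fin t => p.1 ∈ I) = I ×ˢ univ := by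
        ext p
        simp
      rw [this, card_product, hI, card_univ, Fintype.card_fin]
    have e1 : ∀ a : ℕ, ∏ p : Fin k × Fin t, (if p.1 ∈ I then a else 1) = a ^ (m * t) := by
      intro a
      rw [prod_ite, prod_const, prod_const_one, mul_one, hf]
    have e2 : (Bd (I, U)).card = ∏ p : Fin k × Fin t, (if p.1 ∈ I then U else univ).card :=
      Fintype.card_piFinset _
    rw [e2, ← e1 16, ← prod_mul_distrib]
    have e3 : 15 ^ (m * t) * M ^ (k * t) =
        ∏ p : Fin k × Fin t, ((if p.1 ∈ I then 15 else 1) * M) := by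
      rw [prod_mul_distrib, e1 15, prod_const, card_univ, Fintype.card_prod, Fintype.card_fin,
        Fintype.card_fin]
    rw [e3]
    apply prod_le_prod (fun _ _ => Nat.zero_le _)
    intro p _
    split_ifs
    · omega
    · rw [card_univ, Fintype.card_fin]
  have h1 : 16 ^ (m * t) * M ^ (k * t) ≤ 2 ^ (k + M) * (15 ^ (m * t) * M ^ (k * t)) := by
    have h2 := card_le_card hcov
    rw [card_univ, Fintype.card_fun, Fintype.card_fin, Fintype.card_prod, Fintype.card_fin,
      Fintype.card_fin] at h2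
    calc 16 ^ (m * t) * M ^ (k * t) ≤ 16 ^ (m * t) * ∑ q ∈ T, (Bd q).card :=
          Nat.mul_le_mul_left _ (h2.trans card_biUnion_le)
      _ = ∑ q ∈ T, 16 ^ (m * t) * (Bd q).card := by rw [mul_sum]
      _ ≤ ∑ _q ∈ T, 15 ^ (m * t) * M ^ (k * t) := sum_le_sum hcard
      _ = T.card * (15 ^ (m * t) * M ^ (k * t)) := by rw [sum_const, smul_eq_mul]
      _ ≤ 2 ^ (k + M) * (15 ^ (m * t) * M ^ (k * t)) := by
          apply Nat.mul_le_mul_right
          refine (card_le_card (filter_subset _ _)).trans ?_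
          rw [card_univ, Fintype.card_prod, Fintype.card_finset, Fintype.card_finset,
            Fintype.card_fin, Fintype.card_fin, pow_add]
  rw [← mul_assoc] at h1
  have h3 := Nat.le_of_mul_le_mul_right h1 (Nat.pow_pos hM)
  have h4 := Nat.pow_le_pow_left h3 11
  have h5 : (2 ^ (k + M) * 15 ^ (m * t)) ^ 11 ≤ (2 * 15 ^ 11) ^ (m * t) := by
    rw [mul_pow, mul_pow, ← pow_mul, ← pow_mul, ← pow_mul, mul_comm (m * t) 11]
    apply Nat.mul_le_mul_right
    apply Nat.pow_le_pow_right (by norm_num)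
    omega
  have h6 : (16 ^ (m * t)) ^ 11 = (16 ^ 11) ^ (m * t) := by
    rw [← pow_mul, ← pow_mul, mul_comm]
  rw [h6] at h4
  have h7 : (2 * 15 ^ 11) ^ (m * t) < (16 ^ 11) ^ (m * t) := by
    apply Nat.pow_lt_pow_left (by norm_num)
    have : 0 < 11 * (k + M) := by omega
    omega
  omega

/-- Two graphs which no symmetric circuit distinguishes, one with a transversal clique, one all of whose
cliques are smaller by a constant factor. -/
theorem pairG :
    ∃ K : ℕ, 0 < K ∧ ∀ (M κ : ℕ), K * (κ + 1) < M →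
      ∃ G₁ G₂ : SimpleGraph (Fin (M * 5)),
        (∃ p : Fin M → Fin 5, ∀ c c', c ≠ c' → G₁.Adj (embM M (c, p c)) (embM M (c', p c'))) ∧
        (∀ S : Finset (Fin (M * 5)), G₂.IsClique (S : Set (Fin (M * 5))) →
          16 * S.card < 15 * M) ∧
        ∀ (s : ℕ) (C : Net (Lit (M * 5)) Bool s), s < 2 ^ (κ + 1) → BlockSym (embM M) C →
          C.val (lit G₁) C.out = C.val (lit G₂) C.out := by
  classical
  obtain ⟨K, hK, hexp⟩ := Pool.Agent.W45.SYExp.main 3 6 (by norm_num) (by norm_num)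
  refine ⟨3600 * K, by positivity, ?_⟩
  intro M κ hMbig
  have hM4 : 3600 ≤ M := by
    have : 3600 * 1 * 1 ≤ 3600 * K * (κ + 1) :=
      Nat.mul_le_mul (Nat.mul_le_mul_left _ hK) (by omega)
    omega
  set N := M / 5 with hN
  have hN0 : 0 < N := by omega
  have h5N : 5 * N ≤ M := by omega
  have hMN : M ≤ 6 * N := by omega
  set r := 120 * (κ + 1) with hr
  have hKr : K * r ≤ N := by
    have h1 : 3600 * K * (κ + 1) = 30 * (K * r) := by rw [hr]; ring
    omega
  obtain ⟨ν, hν⟩ := hexp N M r hN0 hMN hKr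
  obtain ⟨β, hβ⟩ := gap_unsat ν (by omega) h5N
  have hL := locally_gr Pool.Agent.W324.SY.main (K := 4 * κ) ν hν β (embM M) ∅ (by simp)
    (by omega) (by omega)
  refine ⟨gr ν 0 (embM M) ∅, gr ν β (embM M) ∅, ⟨fun _ => 0, ?_⟩, ?_, ?_⟩
  · intro c c' hcc
    refine ⟨fun h => hcc ?_, Or.inr (Or.inr ⟨(c, 0), (c', 0), rfl, rfl, hcc,
      show (0 : Fin 5) ≠ 4 by decide, show (0 : Fin 5) ≠ 4 by decide, fun i _ => rfl⟩)⟩
    have := (embM M).injective h
    rw [Prod.mk.injEq] at this
    exact this.1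
  · intro S hS
    by_cases h2 : 2 ≤ S.card
    · obtain ⟨a, ha⟩ := clique_sat ν β (embM M) S hS h2
      have := hβ a
      omega
    · omega
  · intro s C hs hsym
    have hX := t_sup (Lit (M * 5)) Bool A5 (commutator_alternatingGroup_eq_top (by simp)) M s κ C
      (actL (embM M)) (actL_one (embM M)) (actL_mul (embM M)) hsym.act hs
    exact core (actL_mul (embM M)) hL C κ hsym.act hX le_rfl

/-- The circuit with the outputs `outs` and the language `L` tell graphs without edges inside the parts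
which have a clique with one vertex in each part from those in which all cliques have less than
`m` vertices. -/
def GapReducesTo {k t s : ℕ} {O : Type} (m : ℕ) (C : Net (Sym2 (Vtx k t) × Bool) Bool s)
    (outs : O → Fin s) (L : Set (O → Bool)) : Prop :=
  ∀ G : SimpleGraph (Vtx k t), (∀ i x y, ¬ G.Adj (i, x) (i, y)) →
    ((∃ S : Finset (Vtx k t), G.IsNClique k S) → (fun o => C.val (litV G) (outs o)) ∈ L) ∧
    ((∀ S : Finset (Vtx k t), G.IsClique (S : Set (Vtx k t)) → S.card < m) →
      (fun o => C.val (litV G) (outs o)) ∉ L)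

theorem gap_bound : ∃ K : ℕ, 0 < K ∧ ∀ (k m t M s : ℕ) (C : Net (Sym2 (Vtx k t) × Bool) Bool s)
    (O : Type) (outs : O → Fin s) (L : Set (O → Bool)), 2 ≤ m → 0 < M → 11 * (k + M) ≤ m * t →
    WordSymOut C outs → GapReducesTo m C outs L →
    M ≤ K * (Nat.log 2 (25 * M ^ 2 + s) + 1) := by
  obtain ⟨K, hK, h⟩ := pairG
  refine ⟨K, hK, fun k m t M s C O outs L hm hM hmt hsym hC => ?_⟩
  by_contra hcon
  push Not at hcon
  obtain ⟨G₁, G₂, h1, h2, h3⟩ := h M _ hcon
  obtain ⟨pos, hpos⟩ := disp hM hmt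
  have heq : (fun o => C.val (litV (wg pos G₁)) (outs o)) =
      fun o => C.val (litV (wg pos G₂)) (outs o) := by
    funext o
    have h7 := h3 (NP M + s) (lft pos ({ C with out := outs o } : Net _ Bool s)) (by
      have h8 := card_NP M
      have h9 : 25 * M ^ 2 + s < 2 ^ (Nat.log 2 (25 * M ^ 2 + s) + 1) :=
        Nat.lt_pow_succ_log_self (by norm_num) _
      omega) (lft_sym pos _ (fun γ hγ => by
        obtain ⟨α, hα, ho⟩ := hsym γ hγ
        exact ⟨α, hα.1, ho o⟩))
    have e1 := val_right pos ({ C with out := outs o } : Net _ Bool s) G₁ (outs o)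
    have e2 := val_right pos ({ C with out := outs o } : Net _ Bool s) G₂ (outs o)
    exact (val_out C (outs o) _ (outs o)).symm.trans (e1.symm.trans (h7.trans (e2.trans
      (val_out C (outs o) _ (outs o)))))
  have h4 := (hC (wg pos G₁) (wg_parts pos G₁)).1 (clique_up pos G₁ h1)
  refine (hC (wg pos G₂) (wg_parts pos G₂)).2 ?_ (by rw [← heq]; exact h4)
  intro S hS
  by_contra hlt
  push Not at hlt
  obtain ⟨I, hI, S', hS', hle⟩ := clique_down pos G₂ S hS (by omega)
  have h5 := h2 S' hS'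
  have h6 := hpos I (by omega)
  omega

theorem gap_final : ∃ K : ℕ, 0 < K ∧ ∀ (k m t s : ℕ) (C : Net (Sym2 (Vtx k t) × Bool) Bool s)
    (O : Type) (outs : O → Fin s) (L : Set (O → Bool)), 2 ≤ m → 22 * (k + 1) ≤ t →
    WordSymOut C outs → GapReducesTo m C outs L → 5 ^ (m * t) ≤ (s + 1) ^ K := by
  obtain ⟨K, hK, h⟩ := gap_bound
  obtain ⟨K', hK', h3⟩ := arith K
  refine ⟨33 * K', by omega, fun k m t s C O outs L hm ht hsym hC => ?_⟩
  have hs : 1 ≤ s := by
    have := C.out.2
    omega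
  have hmt : 44 * (k + 1) ≤ m * t := by
    calc 44 * (k + 1) = 2 * (22 * (k + 1)) := by ring
      _ ≤ m * t := Nat.mul_le_mul hm ht
  set x := m * t with hx
  set M := x / 11 - k with hM
  have hM1 : 11 * (k + M) ≤ x := by omega
  have hM2 : x ≤ 33 * M := by omega
  have hM0 : 0 < M := by omega
  have h4 := h3 M s hs (h k m t M s C O outs L hm hM0 hM1 hsym hC)
  calc 5 ^ x ≤ 5 ^ (33 * M) := Nat.pow_le_pow_right (by norm_num) hM2
    _ = (5 ^ M) ^ 33 := by rw [← pow_mul]; congr 1; ring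
    _ ≤ ((s + 1) ^ K') ^ 33 := Nat.pow_le_pow_left h4 33
    _ = (s + 1) ^ (33 * K') := by rw [← pow_mul]; congr 1; ring

end Pool.Agent.X131.SY.GL
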