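import Pool.Agent.X131.SY.Aut

/-! The lower bound for `k` parts. -/

set_option autoImplicit false

namespace Pool.Agent.X131.SY

open Finset Pool.Agent.W893.SY

variable {k t s : ℕ}

theorem clique_down (hk : 2 ≤ k) (G : SimpleGraph (Fin (k * t * 5)))
    (h : ∃ S : Finset (Vtx k t), (wg G).IsNClique k S) :
    ∃ S : Finset (Fin (k * t * 5)), G.IsNClique (k * t + (∅ : Finset (Fin (k * t * 5))).card) S := by
  classical
  obtain ⟨S, hS⟩ := h
  rw [SimpleGraph.isNClique_iff, SimpleGraph.isClique_iff] at hS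
  obtain ⟨hcl, hcard⟩ := hS
  have hinj : Set.InjOn (fun u : Vtx k t => u.1) (S : Set (Vtx k t)) := by
    intro u hu v hv huv
    by_contra hne
    exact (hcl hu hv hne).1 huv
  have himg : S.image (fun u => u.1) = univ := by
    apply eq_univ_of_card
    rw [card_image_of_injOn hinj, hcard, Fintype.card_fin]
  have hx : ∀ i : Fin k, ∃ x : Fin t → Fin 5, (i, x) ∈ S := by
    intro i
    have : i ∈ S.image (fun u => u.1) := by rw [himg]; exact mem_univ _
    obtain ⟨u, hu, rfl⟩ := mem_image.1 this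
    exact ⟨u.2, hu⟩
  choose x hx using hx
  refine ⟨univ.image fun p : Fin k × Fin t => vx p.1 p.2 (x p.1 p.2), ?_⟩
  rw [SimpleGraph.isNClique_iff, SimpleGraph.isClique_iff, card_empty, add_zero]
  constructor
  · intro a ha b hb hne
    rw [coe_image, Set.mem_image] at ha hb
    obtain ⟨⟨i, j⟩, -, rfl⟩ := ha
    obtain ⟨⟨i', j'⟩, -, rfl⟩ := hb
    rw [← SimpleGraph.mem_edgeSet]
    by_cases hii : i = i'
    · subst hii
      obtain ⟨i'', hi''⟩ : ∃ i'' : Fin k, i'' ≠ i := by
        by_cases h0 : i = ⟨0, by omega⟩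
        · exact ⟨⟨1, by omega⟩, by rw [h0]; simp [Fin.ext_iff]⟩
        · exact ⟨⟨0, by omega⟩, fun h => h0 h.symm⟩
      have hadj := hcl (mem_coe.2 (hx i)) (mem_coe.2 (hx i'')) (fun h => hi'' (by
        have := congrArg Prod.fst h
        exact this.symm))
      refine hadj.2 _ ⟨by rw [Sym2.mk_isDiag_iff]; exact hne, ?_⟩
      intro c hc
      rw [Sym2.mem_iff] at hc
      rcases hc with rfl | rfl
      · exact ⟨(i, x i), by simp, j, rfl⟩
      · exact ⟨(i, x i), by simp, j', rfl⟩
    · have hadj := hcl (mem_coe.2 (hx i)) (mem_coe.2 (hx i')) (fun h => hii (congrArg Prod.fst h))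
      refine hadj.2 _ ⟨by rw [Sym2.mk_isDiag_iff]; exact hne, ?_⟩
      intro c hc
      rw [Sym2.mem_iff] at hc
      rcases hc with rfl | rfl
      · exact ⟨(i, x i), by simp, j, rfl⟩
      · exact ⟨(i', x i'), by simp, j', rfl⟩
  · rw [card_image_of_injective, card_univ, Fintype.card_prod, Fintype.card_fin, Fintype.card_fin]
    rintro ⟨i, j⟩ ⟨i', j'⟩ h
    obtain ⟨rfl, rfl, _⟩ := vx_inj h
    rfl

theorem clique_up (G : SimpleGraph (Fin (k * t * 5)))
    (hG : ∀ i p q, ¬ G.Adj (emb k t (i, p)) (emb k t (i, q)))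
    (h : ∃ S : Finset (Fin (k * t * 5)),
      G.IsNClique (k * t + (∅ : Finset (Fin (k * t * 5))).card) S) :
    ∃ S : Finset (Vtx k t), (wg G).IsNClique k S := by
  classical
  obtain ⟨S, hS⟩ := h
  rw [SimpleGraph.isNClique_iff, SimpleGraph.isClique_iff, card_empty, add_zero] at hS
  obtain ⟨hcl, hcard⟩ := hS
  let bl : Fin (k * t * 5) → Fin (k * t) := fun a => (finProdFinEquiv.symm a).1
  have hbl : ∀ a, a = emb k t (bl a, (finProdFinEquiv.symm a).2) := by
    intro a
    exact (Equiv.apply_symm_apply finProdFinEquiv a).symm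
  have hinj : Set.InjOn bl (S : Set (Fin (k * t * 5))) := by
    intro a ha b hb hab
    by_contra hne
    have h1 := hcl ha hb hne
    rw [hbl a, hbl b, hab] at h1
    exact hG _ _ _ h1
  have himg : S.image bl = univ := by
    apply eq_univ_of_card
    rw [card_image_of_injOn hinj, hcard, Fintype.card_fin]
  have hx : ∀ m : Fin (k * t), ∃ p : Fin 5, emb k t (m, p) ∈ S := by
    intro m
    have : m ∈ S.image bl := by rw [himg]; exact mem_univ _
    obtain ⟨a, ha, rfl⟩ := mem_image.1 this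
    exact ⟨(finProdFinEquiv.symm a).2, by rw [← hbl]; exact ha⟩
  choose p hp using hx
  let x : Fin k → Fin t → Fin 5 := fun i j => p (finProdFinEquiv (i, j))
  have hpx : ∀ i j, vx i j (x i j) ∈ S := fun i j => hp _
  refine ⟨univ.image fun i : Fin k => ((i, x i) : Vtx k t), ?_⟩
  rw [SimpleGraph.isNClique_iff, SimpleGraph.isClique_iff]
  constructor
  · intro u hu v hv hne
    rw [coe_image, Set.mem_image] at hu hv
    obtain ⟨i, -, rfl⟩ := hu
    obtain ⟨i', -, rfl⟩ := hv
    refine ⟨fun h => hne ?_, ?_⟩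
    · have h' : i = i' := h
      rw [h']
    · intro e
      induction e using Sym2.ind with
      | h a b =>
        rintro ⟨hd, hc⟩
        rw [Sym2.mk_isDiag_iff] at hd
        have hmem : ∀ c ∈ s(a, b), c ∈ S := by
          intro c hcc
          obtain ⟨u, hu, j, rfl⟩ := hc c hcc
          rw [Sym2.mem_iff] at hu
          rcases hu with rfl | rfl
          · exact hpx _ _
          · exact hpx _ _
        rw [SimpleGraph.mem_edgeSet]
        exact hcl (mem_coe.2 (hmem a (by simp))) (mem_coe.2 (hmem b (by simp))) hd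
  · rw [card_image_of_injective, card_univ, Fintype.card_fin]
    intro i i' h
    exact congrArg Prod.fst h

theorem wg_parts (G : SimpleGraph (Fin (k * t * 5))) (i : Fin k) (x y : Fin t → Fin 5) :
    ¬ (wg G).Adj (i, x) (i, y) := fun h => h.1 rfl

theorem card_NP (k t : ℕ) : NP k t ≤ 25 * (k * t) ^ 2 := by
  unfold NP
  rw [Sym2.card, Fintype.card_fin, Nat.choose_two_right]
  have : (k * t * 5 + 1) * (k * t * 5 + 1 - 1) / 2 ≤ 25 * (k * t) ^ 2 := by
    apply Nat.div_le_of_le_mul
    rw [Nat.add_sub_cancel]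
    nlinarith [Nat.zero_le (k * t), Nat.le_of_lt_succ (Nat.lt_succ_self (k * t)), sq_nonneg (k * t)]
  exact this

theorem parts : ∃ K : ℕ, 0 < K ∧ ∀ (k t s : ℕ) (C : Net (Sym2 (Vtx k t) × Bool) Bool s),
    2 ≤ k → WordSym C → DecidesParts C → k * t ≤ K * (Nat.log 2 (25 * (k * t) ^ 2 + s) + 1) := by
  obtain ⟨K, hK, h⟩ := lower
  refine ⟨K, hK, fun k t s C hk hsym hC => ?_⟩
  have h1 := h (k * t * 5) (k * t) (NP k t + s) (emb k t) ∅ (lft C) (by simp) (lft_sym C hsym) (by
    intro G hG
    have h2 : (lft C).val (lit G) (lft C).out = C.val (litV (wg G)) C.out := val_right C G C.out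
    rw [h2, hC (wg G) (wg_parts G)]
    exact ⟨clique_down hk G, clique_up G hG⟩)
  refine h1.trans ?_
  gcongr
  exact card_NP k t

end Pool.Agent.X131.SY
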