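import Pool.Agent.X131.SY.Gap

/-! Words which read arbitrary blocks: the position `j` of the words of the part `i` reads the block
`pos (i, j)`. -/

set_option autoImplicit false

namespace Pool.Agent.X131.SY.GL

open Finset Pool.Agent.W893.SY Pool.Agent.X131.SY

section

variable {k t s M : ℕ} (pos : Fin k × Fin t → Fin M)

/-- all vertices are in the blocks -/
def embM (M : ℕ) : Fin M × Fin 5 ↪ Fin (M * 5) := finProdFinEquiv.toEmbedding

/-- the pair `e` of different vertices of the small graph is covered by the pair `z` of words -/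
def Cov (z : Sym2 (Vtx k t)) (e : Sym2 (Fin (M * 5))) : Prop :=
  ¬ e.IsDiag ∧ ∀ a ∈ e, ∃ u ∈ z, ∃ j, a = embM M (pos (u.1, j), u.2 j)

/-- the number of pairs of vertices of the small graph -/
def NP (M : ℕ) : ℕ := Fintype.card (Sym2 (Fin (M * 5)))

/-- numbering of the pairs -/
noncomputable def en : Sym2 (Fin (M * 5)) ≃ Fin (NP M) := Fintype.equivFin _

open Classical in
/-- the wires into the gate which replaces a literal -/
noncomputable def wires (s : ℕ) (z : Sym2 (Vtx k t)) : Multiset (ℕ × Fin (NP M + s)) :=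
  ((univ.filter (Cov pos z)).val).map (fun e => (0, Fin.castAdd s (en e)))

/-- The gates. -/
noncomputable def lgate (C : Net (Sym2 (Vtx k t) × Bool) Bool s) :
    Fin (NP M + s) → Lit (M * 5) ⊕
      (Multiset (ℕ × Fin (NP M + s)) × (Multiset (ℕ × Bool) → Bool)) :=
  Fin.addCases (fun i => Sum.inl (en.symm i, true))
    (fun g => Sum.elim (fun l => Sum.inr (wires pos s l.1, fz l.2 l.1))
      (fun p => Sum.inr (p.1.map (Prod.map id (Fin.natAdd (NP M))), p.2)) (C.gate g))

theorem lgate_left (C : Net (Sym2 (Vtx k t) × Bool) Bool s) (i : Fin (NP M)) :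
    lgate pos C (Fin.castAdd s i) = Sum.inl (en.symm i, true) := by
  unfold lgate
  rw [Fin.addCases_left]

theorem lgate_inl (C : Net (Sym2 (Vtx k t) × Bool) Bool s) {g : Fin s} {l : Sym2 (Vtx k t) × Bool}
    (h : C.gate g = Sum.inl l) :
    lgate pos C (Fin.natAdd (NP M) g) = Sum.inr (wires pos s l.1, fz l.2 l.1) := by
  unfold lgate
  rw [Fin.addCases_right, h]
  rfl

theorem lgate_inr (C : Net (Sym2 (Vtx k t) × Bool) Bool s) {g : Fin s}
    {w : Multiset (ℕ × Fin s)} {f : Multiset (ℕ × Bool) → Bool} (h : C.gate g = Sum.inr (w, f)) :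
    lgate pos C (Fin.natAdd (NP M) g) =
      Sum.inr (w.map (Prod.map id (Fin.natAdd (NP M))), f) := by
  unfold lgate
  rw [Fin.addCases_right, h]
  rfl

/-- The circuit for the small graphs. -/
noncomputable def lft (C : Net (Sym2 (Vtx k t) × Bool) Bool s) :
    Net (Lit (M * 5)) Bool (NP M + s) where
  gate := lgate pos C
  acyclic := by
    intro g w f hg p hp
    induction g using Fin.addCases with
    | left i =>
      rw [lgate_left] at hg
      exact absurd hg (by simp)
    | right g =>
      rcases hc : C.gate g with l | ⟨w', f'⟩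
      · rw [lgate_inl pos C hc] at hg
        obtain ⟨rfl, rfl⟩ := Prod.mk.inj (Sum.inr.inj hg)
        unfold wires at hp
        rw [Multiset.mem_map] at hp
        obtain ⟨e, _, rfl⟩ := hp
        rw [Fin.lt_def]
        simp only [Fin.val_castAdd, Fin.val_natAdd]
        have := (en e).2
        omega
      · rw [lgate_inr pos C hc] at hg
        obtain ⟨rfl, rfl⟩ := Prod.mk.inj (Sum.inr.inj hg)
        rw [Multiset.mem_map] at hp
        obtain ⟨q, hq, rfl⟩ := hp
        have := C.acyclic g w' f' hc q hq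
        rw [Fin.lt_def] at this ⊢
        simp only [Prod.map_snd, Fin.val_natAdd]
        omega
  out := Fin.natAdd (NP M) C.out

/-- the graph on the words -/
def wg (G : SimpleGraph (Fin (M * 5))) : SimpleGraph (Vtx k t) where
  Adj u v := u.1 ≠ v.1 ∧ ∀ e, Cov pos s(u, v) e → e ∈ G.edgeSet
  symm := ⟨by
    rintro u v ⟨h1, h2⟩
    refine ⟨h1.symm, ?_⟩
    rw [Sym2.eq_swap]
    exact h2⟩
  loopless := ⟨fun u h => h.1 rfl⟩

theorem wg_edge (G : SimpleGraph (Fin (M * 5))) (z : Sym2 (Vtx k t)) :
    z ∈ (wg pos G).edgeSet ↔ (¬ Same z ∧ ∀ e, Cov pos z e → e ∈ G.edgeSet) := by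
  induction z using Sym2.ind with
  | h u v =>
    rw [SimpleGraph.mem_edgeSet]
    show (u.1 ≠ v.1 ∧ _) ↔ _
    refine and_congr_left fun _ => ?_
    apply not_congr
    constructor
    · intro h
      refine ⟨v.1, fun w hw => ?_⟩
      rw [Sym2.mem_iff] at hw
      rcases hw with rfl | rfl
      · exact h
      · rfl
    · rintro ⟨i, hi⟩
      rw [hi u (by simp), hi v (by simp)]

theorem val_left (C : Net (Sym2 (Vtx k t) × Bool) Bool s) (x : Lit (M * 5) → Bool)
    (i : Fin (NP M)) : (lft pos C).val x (Fin.castAdd s i) = x (en.symm i, true) :=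
  (lft pos C).val_inl x (lgate_left pos C i)

theorem val_right (C : Net (Sym2 (Vtx k t) × Bool) Bool s) (G : SimpleGraph (Fin (M * 5)))
    (g : Fin s) : (lft pos C).val (lit G) (Fin.natAdd (NP M) g) = C.val (litV (wg pos G)) g := by
  classical
  induction g using WellFoundedLT.induction with
  | ind g ih =>
    rcases hc : C.gate g with l | ⟨w, f⟩
    · rw [C.val_inl _ hc, (lft pos C).val_inr _ (lgate_inl pos C hc)]
      unfold fz litV
      apply decide_eq_decide.2
      apply iff_congr _ Iff.rfl
      rw [wg_edge]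
      refine and_congr_right fun _ => ?_
      unfold wires
      simp only [Multiset.map_map, Multiset.mem_map, Function.comp_apply, mem_val, mem_filter,
        mem_univ, true_and, not_exists, not_and]
      refine forall_congr' fun e => ?_
      refine imp_congr_right fun _ => ?_
      rw [val_left, Equiv.symm_apply_apply]
      unfold lit
      simp
    · rw [C.val_inr _ hc, (lft pos C).val_inr _ (lgate_inr pos C hc), Multiset.map_map]
      congr 1
      apply Multiset.map_congr rfl
      intro p hp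
      simp only [Function.comp_apply, Prod.map_fst, Prod.map_snd, id]
      rw [ih p.2 (C.acyclic g w f hc p hp)]

/-- the permutations of the letters -/
def down (γ : Fin M → Equiv.Perm (Fin 5)) (i : Fin k × Fin t) : Equiv.Perm (Fin 5) := γ (pos i)

theorem cov_map (γ : Fin M → Equiv.Perm (Fin 5)) (z : Sym2 (Vtx k t))
    (e : Sym2 (Fin (M * 5))) :
    Cov pos (z.map (wordMap (down pos γ))) (e.map (blockPerm (embM M) γ)) ↔ Cov pos z e := by
  unfold Cov
  apply and_congr
  · rw [Sym2.isDiag_map (blockPerm (embM M) γ).injective]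
  · constructor
    · intro h a ha
      obtain ⟨u', hu', j, hj⟩ := h (blockPerm (embM M) γ a) (Sym2.mem_map.2 ⟨a, ha, rfl⟩)
      obtain ⟨u, hu, rfl⟩ := Sym2.mem_map.1 hu'
      refine ⟨u, hu, j, ?_⟩
      apply (blockPerm (embM M) γ).injective
      rw [hj, blockPerm_apply]
      rfl
    · intro h a' ha'
      obtain ⟨a, ha, rfl⟩ := Sym2.mem_map.1 ha'
      obtain ⟨u, hu, j, hj⟩ := h a ha
      refine ⟨wordMap (down pos γ) u, Sym2.mem_map.2 ⟨u, hu, rfl⟩, j, ?_⟩
      rw [hj, blockPerm_apply]
      rfl

/-- the automorphism of the lifted circuit -/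
noncomputable def up (γ : Fin M → Equiv.Perm (Fin 5)) (α : Equiv.Perm (Fin s)) :
    Equiv.Perm (Fin (NP M + s)) :=
  finSumFinEquiv.symm.trans ((Equiv.sumCongr
    (en.symm.trans ((pairPerm (blockPerm (embM M) γ)).trans en)) α).trans finSumFinEquiv)

theorem up_left (γ : Fin M → Equiv.Perm (Fin 5)) (α : Equiv.Perm (Fin s))
    (i : Fin (NP M)) : up γ α (Fin.castAdd s i) =
      Fin.castAdd s (en ((en.symm i).map (blockPerm (embM M) γ))) := by
  unfold up
  simp [pairPerm]

theorem up_right (γ : Fin M → Equiv.Perm (Fin 5)) (α : Equiv.Perm (Fin s)) (g : Fin s) :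
    up γ α (Fin.natAdd (NP M) g) = Fin.natAdd (NP M) (α g) := by
  unfold up
  simp

theorem wires_map (γ : Fin M → Equiv.Perm (Fin 5)) (α : Equiv.Perm (Fin s))
    (z : Sym2 (Vtx k t)) :
    wires pos s (z.map (wordMap (down pos γ))) = (wires pos s z).map (Prod.map id (up γ α)) := by
  classical
  have h1 : (univ.filter (Cov pos (z.map (wordMap (down pos γ))))) =
      (univ.filter (Cov pos z)).map (pairPerm (blockPerm (embM M) γ)).toEmbedding := by
    ext e'
    rw [mem_map]
    simp only [mem_filter, mem_univ, true_and, Equiv.coe_toEmbedding]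
    constructor
    · intro h
      refine ⟨(pairPerm (blockPerm (embM M) γ)).symm e', ?_, Equiv.apply_symm_apply _ _⟩
      rw [← cov_map pos γ]
      have : ((pairPerm (blockPerm (embM M) γ)).symm e').map (blockPerm (embM M) γ) = e' :=
        Equiv.apply_symm_apply (pairPerm (blockPerm (embM M) γ)) e'
      rw [this]
      exact h
    · rintro ⟨e, he, rfl⟩
      exact (cov_map pos γ z e).2 he
  unfold wires
  rw [h1, Finset.map_val, Multiset.map_map, Multiset.map_map]
  apply Multiset.map_congr rfl
  intro e _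
  refine Prod.ext rfl ?_
  show Fin.castAdd s (en _) = up γ α (Fin.castAdd s (en e))
  rw [up_left, Equiv.symm_apply_apply]
  rfl

theorem lft_aut (C : Net (Sym2 (Vtx k t) × Bool) Bool s) (γ : Fin M → Equiv.Perm (Fin 5))
    (α : Equiv.Perm (Fin s)) (h : C.IsAut (fun l => (l.1.map (wordMap (down pos γ)), l.2)) α) :
    (lft pos C).IsAut (fun l => (l.1.map (blockPerm (embM M) γ), l.2)) (up γ α) := by
  refine ⟨fun g => ?_, ?_⟩
  · show lgate pos C (up γ α g) = Sum.map _ _ (lgate pos C g)
    induction g using Fin.addCases with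
    | left i =>
      rw [up_left, lgate_left, lgate_left, Equiv.symm_apply_apply]
      rfl
    | right g =>
      have hg := h.1 g
      rw [up_right]
      rcases hc : C.gate g with l | ⟨w, f⟩
      · rw [hc] at hg
        rw [lgate_inl pos C hc, lgate_inl pos C hg]
        simp only [Sum.map_inr, Prod.map_apply, id]
        rw [fz_map, wires_map pos γ α]
      · rw [hc] at hg
        rw [lgate_inr pos C hc, lgate_inr pos C (w := w.map (Prod.map id α)) (f := f)
          (by rw [hg]; rfl)]
        simp only [Sum.map_inr, Prod.map_apply, id, Multiset.map_map]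
        congr 2
        apply Multiset.map_congr rfl
        intro p _
        exact Prod.ext rfl (up_right γ α p.2).symm
  · show up γ α (Fin.natAdd (NP M) C.out) = Fin.natAdd (NP M) C.out
    rw [up_right, h.2]

theorem lft_sym (C : Net (Sym2 (Vtx k t) × Bool) Bool s) (h : WordSym C) :
    BlockSym (embM M) (lft pos C) := by
  intro γ hγ
  obtain ⟨α, hα⟩ := h (down pos γ) (fun i => hγ _)
  exact ⟨_, lft_aut pos C γ α hα⟩

theorem clique_up (G : SimpleGraph (Fin (M * 5)))
    (h : ∃ p : Fin M → Fin 5, ∀ c c', c ≠ c' → G.Adj (embM M (c, p c)) (embM M (c', p c'))) :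
    ∃ S : Finset (Vtx k t), (wg pos G).IsNClique k S := by
  classical
  obtain ⟨p, hp⟩ := h
  refine ⟨univ.image fun i : Fin k => ((i, fun j => p (pos (i, j))) : Vtx k t), ?_⟩
  rw [SimpleGraph.isNClique_iff, SimpleGraph.isClique_iff]
  constructor
  · intro u hu v hv hne
    rw [coe_image, Set.mem_image] at hu hv
    obtain ⟨i, -, rfl⟩ := hu
    obtain ⟨i', -, rfl⟩ := hv
    refine ⟨fun h => hne ?_, ?_⟩
    · have h' : i = i' := h
      rw [h']
    · intro e
      induction e using Sym2.ind with
      | h a b =>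
        rintro ⟨hd, hc⟩
        rw [Sym2.mk_isDiag_iff] at hd
        have hmem : ∀ x ∈ s(a, b), ∃ c, x = embM M (c, p c) := by
          intro x hx
          obtain ⟨u, hu, j, rfl⟩ := hc x hx
          rw [Sym2.mem_iff] at hu
          rcases hu with rfl | rfl
          · exact ⟨_, rfl⟩
          · exact ⟨_, rfl⟩
        obtain ⟨c, hc1⟩ := hmem a (by simp)
        obtain ⟨c', hc2⟩ := hmem b (by simp)
        rw [SimpleGraph.mem_edgeSet, hc1, hc2]
        apply hp
        rintro rfl
        exact hd (hc1.trans hc2.symm)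
  · rw [card_image_of_injective, card_univ, Fintype.card_fin]
    intro i i' h
    exact congrArg Prod.fst h

theorem clique_down (G : SimpleGraph (Fin (M * 5))) (S : Finset (Vtx k t))
    (hS : (wg pos G).IsClique (S : Set (Vtx k t))) (h2 : 2 ≤ S.card) :
    ∃ I : Finset (Fin k), I.card = S.card ∧ ∃ S' : Finset (Fin (M * 5)),
      G.IsClique (S' : Set (Fin (M * 5))) ∧
        (I.biUnion fun i => univ.image fun j => pos (i, j)).card ≤ S'.card := by
  classical
  rw [SimpleGraph.isClique_iff] at hS
  have hinj : Set.InjOn (fun u : Vtx k t => u.1) (S : Set (Vtx k t)) := by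
    intro u hu v hv huv
    by_contra hne
    exact (hS hu hv hne).1 huv
  set I := S.image (fun u => u.1) with hI
  have hIc : I.card = S.card := card_image_of_injOn hinj
  refine ⟨I, hIc, S.biUnion fun u => univ.image fun j => embM M (pos (u.1, j), u.2 j), ?_, ?_⟩
  · rw [SimpleGraph.isClique_iff]
    intro a ha b hb hne
    rw [mem_coe, mem_biUnion] at ha hb
    obtain ⟨u, hu, ha⟩ := ha
    obtain ⟨v, hv, hb⟩ := hb
    rw [mem_image] at ha hb
    obtain ⟨j, -, rfl⟩ := ha
    obtain ⟨j', -, rfl⟩ := hb
    rw [← SimpleGraph.mem_edgeSet]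
    by_cases huv : u = v
    · subst huv
      obtain ⟨w, hw, hwu⟩ := exists_mem_ne (s := S) (by omega) u
      refine (hS (mem_coe.2 hu) (mem_coe.2 hw) hwu.symm).2 _
        ⟨by rw [Sym2.mk_isDiag_iff]; exact hne, ?_⟩
      intro c hc
      rw [Sym2.mem_iff] at hc
      rcases hc with rfl | rfl
      · exact ⟨u, by simp, j, rfl⟩
      · exact ⟨u, by simp, j', rfl⟩
    · refine (hS (mem_coe.2 hu) (mem_coe.2 hv) huv).2 _
        ⟨by rw [Sym2.mk_isDiag_iff]; exact hne, ?_⟩
      intro c hc
      rw [Sym2.mem_iff] at hc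
      rcases hc with rfl | rfl
      · exact ⟨u, by simp, j, rfl⟩
      · exact ⟨v, by simp, j', rfl⟩
  · let bl : Fin (M * 5) → Fin M := fun a => (finProdFinEquiv.symm a).1
    have hbl : ∀ q : Fin M × Fin 5, bl (embM M q) = q.1 := by
      intro q
      show (finProdFinEquiv.symm (finProdFinEquiv q)).1 = q.1
      rw [Equiv.symm_apply_apply]
    refine (card_le_card ?_).trans (card_image_le (f := bl))
    intro c hc
    rw [mem_biUnion] at hc
    obtain ⟨i, hi, hc⟩ := hc
    rw [mem_image] at hc
    obtain ⟨j, -, rfl⟩ := hc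
    rw [hI, mem_image] at hi
    obtain ⟨u, hu, rfl⟩ := hi
    rw [mem_image]
    exact ⟨embM M (pos (u.1, j), u.2 j), mem_biUnion.2 ⟨u, hu, mem_image.2 ⟨j, mem_univ _, rfl⟩⟩,
      hbl _⟩

theorem wg_parts (G : SimpleGraph (Fin (M * 5))) (i : Fin k) (x y : Fin t → Fin 5) :
    ¬ (wg pos G).Adj (i, x) (i, y) := fun h => h.1 rfl

theorem card_NP (M : ℕ) : NP M ≤ 25 * M ^ 2 := by
  unfold NP
  rw [Sym2.card, Fintype.card_fin, Nat.choose_two_right]
  have : (M * 5 + 1) * (M * 5 + 1 - 1) / 2 ≤ 25 * M ^ 2 := by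
    apply Nat.div_le_of_le_mul
    rw [Nat.add_sub_cancel]
    nlinarith [Nat.zero_le M, sq_nonneg M]
  exact this

end

end Pool.Agent.X131.SY.GL
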