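import Pool.Agent.X131.SY.Pair

/-! Systems of linear equations all of whose assignments violate many equations. -/

set_option autoImplicit false

namespace Pool.Agent.X131.SY

open Finset Pool.Agent.W893.SY

/-- the number of the vectors close to `v` -/
theorem ball {M d : ℕ} (v : Fin M → ZMod 2) :
    (univ.filter fun b : Fin M → ZMod 2 => (univ.filter fun c => v c ≠ b c).card ≤ d).card *
      8 ^ (M - d) ≤ 9 ^ M := by
  classical
  have h1 : ∑ b : Fin M → ZMod 2, ∏ c, (if v c = b c then 8 else 1) = 9 ^ M := by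
    have h := Finset.prod_univ_sum (R := ℕ) (ι := Fin M) (κ := fun _ => ZMod 2)
      (fun _ => univ) (fun c z => if v c = z then 8 else 1)
    rw [Fintype.piFinset_univ] at h
    rw [← h]
    have h2 : ∀ c : Fin M, ∑ z : ZMod 2, (if v c = z then 8 else 1) = 9 := by
      intro c
      generalize v c = w
      revert w
      decide
    simp [h2]
  rw [← h1, ← smul_eq_mul]
  refine (card_nsmul_le_sum _ _ _ ?_).trans (sum_le_sum_of_subset (filter_subset _ _))
  intro b hb
  rw [mem_filter] at hb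
  rw [prod_ite, prod_const, prod_const_one, mul_one]
  apply Nat.pow_le_pow_right (by norm_num)
  have h3 := card_filter_add_card_filter_not (s := (univ : Finset (Fin M))) (fun c => v c = b c)
  rw [card_univ, Fintype.card_fin] at h3
  have h4 : (univ.filter fun c => ¬ v c = b c).card ≤ d := hb.2
  omega

theorem nine : (9 : ℕ) ^ 16 ≤ 2 ^ 51 := by norm_num

/-- every assignment violates more than one equation in sixteen -/
theorem gap_unsat {N M : ℕ} (ν : Fin M → Fin 3 → Fin N) (hM : 0 < M) (h : 5 * N ≤ M) :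
    ∃ β : Fin M → Fin 3 → ZMod 2, ∀ a : Fin 3 × Fin N → ZMod 2,
      M < 16 * (univ.filter fun c => ∑ i, a (i, ν c i) ≠ ∑ i, β c i).card := by
  classical
  by_contra hcon
  push Not at hcon
  set d := M / 16 with hd
  -- every vector is close to a value
  have h1 : ∀ b : Fin M → ZMod 2, ∃ a : Fin 3 × Fin N → ZMod 2,
      (univ.filter fun c => ∑ i, a (i, ν c i) ≠ b c).card ≤ d := by
    intro b
    obtain ⟨a, ha⟩ := hcon (fun c i => if i = 0 then b c else 0)
    refine ⟨a, ?_⟩
    have h2 : (univ.filter fun c => ∑ i, a (i, ν c i) ≠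
        ∑ i : Fin 3, (if i = 0 then b c else 0)) =
        univ.filter fun c => ∑ i, a (i, ν c i) ≠ b c := by
      congr 1
      funext c
      simp
    rw [h2] at ha
    omega
  have h3 : (univ : Finset (Fin M → ZMod 2)) ⊆
      (univ : Finset (Fin 3 × Fin N → ZMod 2)).biUnion fun a =>
        univ.filter fun b : Fin M → ZMod 2 =>
          (univ.filter fun c => ∑ i, a (i, ν c i) ≠ b c).card ≤ d := by
    intro b _
    obtain ⟨a, ha⟩ := h1 b
    rw [mem_biUnion]
    exact ⟨a, mem_univ _, mem_filter.2 ⟨mem_univ _, ha⟩⟩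
  have h4 := card_le_card h3
  rw [card_univ, Fintype.card_fun, Fintype.card_fin, ZMod.card] at h4
  have h5 : 2 ^ M * 8 ^ (M - d) ≤ 2 ^ (3 * N) * 9 ^ M := by
    calc 2 ^ M * 8 ^ (M - d) ≤ (∑ a : Fin 3 × Fin N → ZMod 2,
          (univ.filter fun b : Fin M → ZMod 2 =>
            (univ.filter fun c => ∑ i, a (i, ν c i) ≠ b c).card ≤ d).card) * 8 ^ (M - d) :=
          Nat.mul_le_mul_right _ (h4.trans card_biUnion_le)
      _ = ∑ a : Fin 3 × Fin N → ZMod 2, (univ.filter fun b : Fin M → ZMod 2 =>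
            (univ.filter fun c => ∑ i, a (i, ν c i) ≠ b c).card ≤ d).card * 8 ^ (M - d) := by
          rw [sum_mul]
      _ ≤ ∑ _a : Fin 3 × Fin N → ZMod 2, 9 ^ M :=
          sum_le_sum fun a _ => ball (fun c => ∑ i, a (i, ν c i))
      _ = 2 ^ (3 * N) * 9 ^ M := by
          rw [sum_const, card_univ, smul_eq_mul, Fintype.card_fun, Fintype.card_prod,
            Fintype.card_fin, Fintype.card_fin, ZMod.card]
  have h6 := Nat.pow_le_pow_left h5 16
  have h7 : (2 ^ M * 8 ^ (M - d)) ^ 16 = 2 ^ (16 * M + 48 * (M - d)) := by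
    rw [mul_pow, ← pow_mul, show (8 : ℕ) = 2 ^ 3 by norm_num, ← pow_mul, ← pow_mul, ← pow_add]
    congr 1
    ring
  have h8 : (2 ^ (3 * N) * 9 ^ M) ^ 16 ≤ 2 ^ (48 * N + 51 * M) := by
    rw [mul_pow, ← pow_mul, ← pow_mul, mul_comm M 16, pow_mul 9 16 M, pow_add]
    apply Nat.mul_le_mul
    · apply Nat.pow_le_pow_right (by norm_num)
      omega
    · rw [pow_mul 2 51 M]
      exact Nat.pow_le_pow_left nine M
  rw [h7] at h6
  have h9 := (Nat.pow_le_pow_iff_right (by norm_num : 1 < 2)).1 (h6.trans h8)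
  omega

section

variable {M N n : ℕ} (ν : Fin M → Fin 3 → Fin N) (β : Fin M → Fin 3 → ZMod 2)
  (e : Fin M × Fin 5 ↪ Fin n)

/-- a clique gives an assignment which satisfies many equations -/
theorem clique_sat (S : Finset (Fin n)) (hS : (gr ν β e ∅).IsClique (S : Set (Fin n)))
    (h2 : 2 ≤ S.card) : ∃ a : Fin 3 × Fin N → ZMod 2,
      S.card + (univ.filter fun c => ∑ i, a (i, ν c i) ≠ ∑ i, β c i).card ≤ M := by
  classical
  rw [SimpleGraph.isClique_iff] at hS
  have hadj : ∀ z ∈ S, ∀ z' ∈ S, z ≠ z' → ∃ p p', z = e p ∧ z' = e p' ∧ cf ν β p p' := by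
    intro z hz z' hz' hne
    have := (hS (mem_coe.2 hz) (mem_coe.2 hz') hne).2
    rcases this with h | h | h
    · exact absurd h (notMem_empty _)
    · exact absurd h (notMem_empty _)
    · exact h
  have hrep : ∀ z ∈ S, ∃ p : Fin M × Fin 5, z = e p ∧ p.2 ≠ 4 := by
    intro z hz
    obtain ⟨z', hz', hne⟩ := exists_mem_ne (s := S) (by omega) z
    obtain ⟨p, p', h1, _, h3⟩ := hadj z hz z' hz' hne.symm
    exact ⟨p, h1, h3.2.1⟩
  obtain ⟨z₀, hz₀⟩ : S.Nonempty := card_pos.1 (by omega)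
  obtain ⟨p₀, -, -⟩ := hrep z₀ hz₀
  have : Nonempty (Fin M × Fin 5) := ⟨p₀⟩
  choose! f hf hf4 using hrep
  have hinj : Set.InjOn (fun z => (f z).1) (S : Set (Fin n)) := by
    intro z hz z' hz' h
    by_contra hne
    obtain ⟨p, p', h1, h2, h3⟩ := hadj z hz z' hz' hne
    have e1 : p = f z := e.injective (h1.symm.trans (hf z hz))
    have e2 : p' = f z' := e.injective (h2.symm.trans (hf z' hz'))
    apply h3.1
    rw [e1, e2]
    exact h
  set Q := S.image (fun z => (f z).1) with hQ
  have hQc : Q.card = S.card := card_image_of_injOn hinj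
  have hsurj : ∀ c ∈ Q, ∃ z ∈ S, (f z).1 = c := by
    intro c hc
    rw [hQ, mem_image] at hc
    exact hc
  have : Nonempty (Fin n) := ⟨z₀⟩
  choose! z hz hzc using hsurj
  have hcons : ∀ c ∈ Q, ∀ c' ∈ Q, ∀ i, ν c i = ν c' i →
      vec (f (z c)).2 i + β c i = vec (f (z c')).2 i + β c' i := by
    intro c hcQ c' hcQ' i hi
    by_cases hcc : c = c'
    · subst hcc; rfl
    · have hne : z c ≠ z c' := by
        intro h
        apply hcc
        rw [← hzc c hcQ, ← hzc c' hcQ', h]
      obtain ⟨p, p', h1, h2, h3⟩ := hadj _ (hz c hcQ) _ (hz c' hcQ') hne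
      have e1 : p = f (z c) := e.injective (h1.symm.trans (hf _ (hz c hcQ)))
      have e2 : p' = f (z c') := e.injective (h2.symm.trans (hf _ (hz c' hcQ')))
      have h4 := h3.2.2.2 i (by rw [e1, e2, hzc c hcQ, hzc c' hcQ']; exact hi)
      rw [e1, e2, hzc c hcQ, hzc c' hcQ'] at h4
      exact h4
  refine ⟨fun p => if h : ∃ c, c ∈ Q ∧ ν c p.1 = p.2 then
    vec (f (z h.choose)).2 p.1 + β h.choose p.1 else 0, ?_⟩
  have hsub : (univ.filter fun c => ∑ i : Fin 3, (if h : ∃ c', c' ∈ Q ∧ ν c' i = ν c i then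
      vec (f (z h.choose)).2 i + β h.choose i else 0) ≠ ∑ i, β c i) ⊆ Qᶜ := by
    intro c hc
    rw [mem_filter] at hc
    rw [mem_compl]
    intro hcQ
    apply hc.2
    have h5 : ∀ i, (if h : ∃ c', c' ∈ Q ∧ ν c' i = ν c i then
        vec (f (z h.choose)).2 i + β h.choose i else 0) = vec (f (z c)).2 i + β c i := by
      intro i
      have h : ∃ c', c' ∈ Q ∧ ν c' i = ν c i := ⟨c, hcQ, rfl⟩
      rw [dif_pos h]
      exact hcons _ h.choose_spec.1 _ hcQ i h.choose_spec.2
    simp only [h5]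
    rw [sum_add_distrib]
    have h6 := sum_vec (f (z c)).2
    rw [Fin.sum_univ_three, h6, zero_add]
  have h7 := card_le_card hsub
  rw [card_compl, Fintype.card_fin, hQc] at h7
  have h8 : S.card ≤ M := by
    rw [← hQc]
    calc Q.card ≤ (univ : Finset (Fin M)).card := card_le_card (subset_univ _)
      _ = M := by simp
  have h9 := Nat.add_le_add_left h7 S.card
  rw [Nat.add_sub_cancel' h8] at h9
  exact h9

end

end Pool.Agent.X131.SY
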