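import Pool.Agent.X131.SY.Sup
import Pool.Agent.W893.SY.Lower
import Pool.Agent.W45.SYExp
import Pool.Agent.W366.SY.SYUp
import Pool.Agent.W324.SY.Loc

/-! The lower bound for circuits that are correct on the graphs without edges inside the blocks. -/

set_option autoImplicit false

namespace Pool.Agent.X131.SY

open Finset Pool.Agent.W893.SY

theorem gr_block {M N n : ℕ} (ν : Fin M → Fin 3 → Fin N) (β : Fin M → Fin 3 → ZMod 2)
    {e : Fin M × Fin 5 ↪ Fin n} {Un : Finset (Fin n)} (hUn : ∀ z ∈ Un, z ∉ Set.range e)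
    (i : Fin M) (p q : Fin 5) : ¬ (gr ν β e Un).Adj (e (i, p)) (e (i, q)) := by
  rintro ⟨_, h | h | ⟨a, b, ha, hb, h⟩⟩
  · exact hUn _ h ⟨_, rfl⟩
  · exact hUn _ h ⟨_, rfl⟩
  · apply h.1
    rw [← e.injective ha, ← e.injective hb]

theorem lower :
    ∃ K : ℕ, 0 < K ∧ ∀ (n M s : ℕ) (e : Fin M × Fin 5 ↪ Fin n) (Un : Finset (Fin n))
      (C : Net (Lit n) Bool s), (∀ z ∈ Un, z ∉ Set.range e) → BlockSym e C →
      (∀ G : SimpleGraph (Fin n), (∀ i p q, ¬ G.Adj (e (i, p)) (e (i, q))) →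
        (C.val (lit G) C.out = true ↔ ∃ S : Finset (Fin n), G.IsNClique (M + Un.card) S)) →
      M ≤ K * (Nat.log 2 s + 1) := by
  classical
  obtain ⟨K, hK, hexp⟩ := Pool.Agent.W45.SYExp.main 3 6 (by norm_num) (by norm_num)
  refine ⟨3600 * K, by positivity, ?_⟩
  intro n M s e Un C hUn hsym hC
  by_contra hcon
  push Not at hcon
  set κ := Nat.log 2 s with hκ
  have hMbig : 3600 * K * (κ + 1) < M := hcon
  have hM4 : 3600 ≤ M := by
    have : 3600 * 1 * 1 ≤ 3600 * K * (κ + 1) :=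
      Nat.mul_le_mul (Nat.mul_le_mul_left _ hK) (by omega)
    omega
  set N := (M - 1) / 3 with hN
  have hN0 : 0 < N := by omega
  have h3N : 3 * N < M := by omega
  have hMN : M ≤ 6 * N := by omega
  set r := 120 * (κ + 1) with hr
  have hKr : K * r ≤ N := by
    have h1 : 3600 * K * (κ + 1) = 30 * (K * r) := by rw [hr]; ring
    omega
  obtain ⟨ν, hν⟩ := hexp N M r hN0 hMN hKr
  obtain ⟨β, hβ⟩ := exists_unsat ν h3N
  have hL := locally_gr Pool.Agent.W324.SY.main (K := 4 * κ) ν hν β e Un hUn (by omega) (by omega)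
  have hs : s < 2 ^ (κ + 1) := Nat.lt_pow_succ_log_self (by norm_num) s
  have hX := t_sup (Lit n) Bool A5 (commutator_alternatingGroup_eq_top (by simp)) M s κ C (actL e)
    (actL_one e) (actL_mul e) hsym.act hs
  have heq := core (actL_mul e) hL C κ hsym.act hX le_rfl
  have h1 := (hC (gr ν 0 e Un) (gr_block ν 0 hUn)).2 (clique_gr ν hUn)
  rw [heq] at h1
  obtain ⟨S, hS⟩ := (hC (gr ν β e Un) (gr_block ν β hUn)).1 h1
  exact no_clique_gr ν β (by omega) hβ S hS

theorem card_A5 : Fintype.card A5 = 60 := by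
  rw [card_alternatingGroup, Fintype.card_fin]
  rfl

theorem upper {n M s k : ℕ} (e : Fin M × Fin 5 ↪ Fin n) (C : Net (Lit n) Bool s) (hA : C.AndOr)
    (hC : DecidesClique k C) : ∃ C' : Net (Lit n) Bool (60 ^ M * s + 1), C'.AndOr ∧
      BlockSym e C' ∧ DecidesClique k C' := by
  classical
  have h60 : Fintype.card (Fin M → A5) = 60 ^ M := by
    rw [Fintype.card_fun, Fintype.card_fin, card_A5]
  have h := Pool.Agent.W366.SYUp.main (Lit n) (Fin M → A5) (actL e) s C
    (actL_one e) (actL_mul e) hA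
  rw [h60] at h
  obtain ⟨C', hA', hsym, hval⟩ := h
  refine ⟨C', hA', fun γ hγ => hsym (fun i => ⟨γ i, hγ i⟩), fun G => ?_⟩
  rw [hval]
  -- the graph with the permuted vertices
  have key : ∀ a : Fin M → A5, lit G ∘ actL e a =
      lit (G.comap (blockPerm e (fun i => (a i : Equiv.Perm (Fin 5))))) := by
    intro a
    funext l
    obtain ⟨z, b⟩ := l
    induction z using Sym2.ind with
    | h u v =>
      unfold lit actL
      simp only [Function.comp_apply, Sym2.map_mk, SimpleGraph.mem_edgeSet, SimpleGraph.comap_adj]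
  constructor
  · rintro ⟨a, ha⟩
    rw [key, hC] at ha
    obtain ⟨S, hS⟩ := ha
    refine ⟨S.map (blockPerm e (fun i => (a i : Equiv.Perm (Fin 5)))).toEmbedding, ?_⟩
    rw [SimpleGraph.isNClique_iff] at hS ⊢
    refine ⟨?_, by rw [card_map]; exact hS.2⟩
    rw [SimpleGraph.isClique_iff] at hS ⊢
    intro x hx y hy hne
    rw [mem_coe, mem_map] at hx hy
    obtain ⟨x, hx, rfl⟩ := hx
    obtain ⟨y, hy, rfl⟩ := hy
    exact hS.1 (mem_coe.2 hx) (mem_coe.2 hy) (fun h => hne (by rw [h]))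
  · rintro ⟨S, hS⟩
    refine ⟨1, ?_⟩
    rw [actL_one, Function.comp_id, hC]
    exact ⟨S, hS⟩

end Pool.Agent.X131.SY
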