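import Pool.Agent.X131.SY.Fin

/-! The final form of the bounds. -/

set_option autoImplicit false

namespace Pool.Agent.X131.SY

open Finset Pool.Agent.W893.SY

theorem five_le {x y z s K : ℕ} (hs : 1 ≤ s) (hx : x ≤ K * (Nat.log 2 s + y)) (hz : y ≤ 2)
    (hK : 6 * K ≤ z) : 5 ^ x ≤ (s + 1) ^ z := by
  have h1 : 2 ^ Nat.log 2 s ≤ s := Nat.pow_log_le_self 2 (by omega)
  have h2 : 2 ^ (Nat.log 2 s + y) ≤ (s + 1) ^ 2 := by
    calc 2 ^ (Nat.log 2 s + y) ≤ 2 ^ (Nat.log 2 s + 2) := Nat.pow_le_pow_right (by norm_num) (by omega)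
      _ = 2 ^ Nat.log 2 s * 4 := by rw [pow_add]; norm_num
      _ ≤ s * 4 := Nat.mul_le_mul_right _ h1
      _ ≤ (s + 1) ^ 2 := by
        obtain ⟨r, rfl⟩ : ∃ r, s = r + 1 := ⟨s - 1, by omega⟩
        nlinarith [sq_nonneg r]
  calc 5 ^ x ≤ 8 ^ x := Nat.pow_le_pow_left (by norm_num) x
    _ = 2 ^ (3 * x) := by rw [pow_mul]; norm_num
    _ ≤ 2 ^ (3 * (K * (Nat.log 2 s + y))) := Nat.pow_le_pow_right (by norm_num) (by omega)
    _ = (2 ^ (Nat.log 2 s + y)) ^ (3 * K) := by rw [← pow_mul]; congr 1; ring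
    _ ≤ ((s + 1) ^ 2) ^ (3 * K) := Nat.pow_le_pow_left h2 _
    _ = (s + 1) ^ (6 * K) := by rw [← pow_mul]; congr 1; ring
    _ ≤ (s + 1) ^ z := Nat.pow_le_pow_right (by omega) hK

/-- exponential growth -/
theorem exists_large (K : ℕ) : ∃ X : ℕ, ∀ x, X ≤ x → (100 * x ^ 2) ^ K < 2 ^ x := by
  have h := tendsto_pow_const_div_const_pow_of_one_lt (2 * K) (r := (2 : ℝ)) (by norm_num)
  have h2 : (0 : ℝ) < 1 / 100 ^ K := by positivity
  have h3 := (h.eventually (gt_mem_nhds h2))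
  obtain ⟨X, hX⟩ := Filter.eventually_atTop.1 h3
  refine ⟨X, fun x hx => ?_⟩
  have h4 := hX x hx
  rw [div_lt_div_iff₀ (by positivity) (by positivity), one_mul] at h4
  have h5 : ((100 * x ^ 2 : ℕ) : ℝ) ^ K < 2 ^ x := by
    push_cast
    rw [mul_pow, ← pow_mul]
    linarith
  exact_mod_cast h5

theorem arith (K : ℕ) : ∃ K' : ℕ, 6 * K ≤ K' ∧ ∀ x s : ℕ, 1 ≤ s →
    x ≤ K * (Nat.log 2 (25 * x ^ 2 + s) + 1) → 5 ^ x ≤ (s + 1) ^ K' := by
  obtain ⟨X, hX⟩ := exists_large K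
  refine ⟨6 * K + 3 * X, by omega, fun x s hs hx => ?_⟩
  by_cases h : 25 * x ^ 2 ≤ s
  · have h1 : Nat.log 2 (25 * x ^ 2 + s) ≤ Nat.log 2 s + 1 := by
      calc Nat.log 2 (25 * x ^ 2 + s) ≤ Nat.log 2 (s * 2) := Nat.log_mono_right (by omega)
        _ = Nat.log 2 s + 1 := Nat.log_mul_base (by norm_num) (by omega)
    exact five_le hs (hx.trans (Nat.mul_le_mul_left K (by omega :
      Nat.log 2 (25 * x ^ 2 + s) + 1 ≤ Nat.log 2 s + 2))) le_rfl (by omega)
  · push Not at h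
    have hxX : x < X := by
      by_contra hcon
      push Not at hcon
      have h1 := hX x hcon
      have h0 : 25 * x ^ 2 + s ≠ 0 := by omega
      have h2 : 2 ^ x ≤ (100 * x ^ 2) ^ K := by
        calc 2 ^ x ≤ 2 ^ (K * (Nat.log 2 (25 * x ^ 2 + s) + 1)) :=
              Nat.pow_le_pow_right (by norm_num) hx
          _ = (2 ^ Nat.log 2 (25 * x ^ 2 + s) * 2) ^ K := by rw [← pow_succ, ← pow_mul, mul_comm]
          _ ≤ ((25 * x ^ 2 + s) * 2) ^ K :=
              Nat.pow_le_pow_left (Nat.mul_le_mul_right _ (Nat.pow_log_le_self 2 h0)) K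
          _ ≤ (100 * x ^ 2) ^ K := Nat.pow_le_pow_left (by omega) K
      omega
    calc 5 ^ x ≤ 8 ^ x := Nat.pow_le_pow_left (by norm_num) x
      _ = 2 ^ (3 * x) := by rw [pow_mul]; norm_num
      _ ≤ 2 ^ (6 * K + 3 * X) := Nat.pow_le_pow_right (by norm_num) (by omega)
      _ ≤ (s + 1) ^ (6 * K + 3 * X) := Nat.pow_le_pow_left (by omega) _

/-- The circuit is correct on all graphs without edges inside the blocks. -/
def DecidesBlocks {n M s : ℕ} (e : Fin M × Fin 5 ↪ Fin n) (k : ℕ) (C : Net (Lit n) Bool s) : Prop :=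
  ∀ G : SimpleGraph (Fin n), (∀ i p q, ¬ G.Adj (e (i, p)) (e (i, q))) →
    (C.val (lit G) C.out = true ↔ ∃ S : Finset (Fin n), G.IsNClique k S)

theorem bounds : ∃ K : ℕ, 0 < K ∧
    (∀ (n M s : ℕ) (e : Fin M × Fin 5 ↪ Fin n) (Un : Finset (Fin n)) (C : Net (Lit n) Bool s),
      (∀ z ∈ Un, z ∉ Set.range e) → BlockSym e C → DecidesBlocks e (M + Un.card) C →
      5 ^ M ≤ (s + 1) ^ K) ∧
    (∀ (k t s : ℕ) (C : Net (Sym2 (Vtx k t) × Bool) Bool s), 2 ≤ k → WordSym C →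
      DecidesParts C → 5 ^ (k * t) ≤ (s + 1) ^ K) := by
  obtain ⟨K₁, hK₁, h1⟩ := lower
  obtain ⟨K₂, hK₂, h2⟩ := parts
  obtain ⟨K, hK, h3⟩ := arith K₂
  refine ⟨6 * K₁ + K, by omega, ?_, ?_⟩
  · intro n M s e Un C hUn hsym hC
    have hs : 1 ≤ s := by
      have := C.out.2
      omega
    exact five_le hs (h1 n M s e Un C hUn hsym hC) (by norm_num) (by omega)
  · intro k t s C hk hsym hC
    have hs : 1 ≤ s := by
      have := C.out.2
      omega
    exact (h3 (k * t) s hs (h2 k t s C hk hsym hC)).trans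
      (Nat.pow_le_pow_right (by omega) (by omega))

/-- from an exponential bound to no fpt bound -/
theorem fpt {K c k b A t s : ℕ} (hb : 2 ≤ b) (hk : K * c < k) (ht : (A + 1) ^ K ≤ t)
    (h : b ^ (k * t) ≤ (s + 1) ^ K) : A * (b ^ t) ^ c < s := by
  by_contra hcon
  push Not at hcon
  have hb0 : 0 < b := by omega
  have h1 : s + 1 ≤ (A + 1) * (b ^ t) ^ c := by
    have : 1 ≤ (b ^ t) ^ c := Nat.one_le_pow _ _ (Nat.pow_pos hb0)
    nlinarith
  have h2 : b ^ (k * t) ≤ (A + 1) ^ K * b ^ (t * c * K) := by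
    calc b ^ (k * t) ≤ (s + 1) ^ K := h
      _ ≤ ((A + 1) * (b ^ t) ^ c) ^ K := Nat.pow_le_pow_left h1 K
      _ = (A + 1) ^ K * b ^ (t * c * K) := by rw [mul_pow, ← pow_mul, ← pow_mul, mul_assoc t c K]
  have h3 : b ^ (k * t) = b ^ (t * (k - K * c)) * b ^ (t * c * K) := by
    rw [← pow_add]
    congr 1
    obtain ⟨d, rfl⟩ : ∃ d, k = K * c + d := ⟨k - K * c, by omega⟩
    rw [Nat.add_sub_cancel_left]
    ring
  rw [h3] at h2
  have h4 := Nat.le_of_mul_le_mul_right h2 (Nat.pow_pos hb0)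
  have h5 : t < b ^ t := Nat.lt_pow_self (by omega)
  have h6 : b ^ t ≤ b ^ (t * (k - K * c)) := by
    apply Nat.pow_le_pow_right hb0
    exact Nat.le_mul_of_pos_right t (by omega)
  omega

/-- the action on the literals -/
def actW {k t : ℕ} (γ : Fin k × Fin t → A5) (l : Sym2 (Vtx k t) × Bool) :
    Sym2 (Vtx k t) × Bool :=
  (l.1.map (wordMap (fun i => (γ i : Equiv.Perm (Fin 5)))), l.2)

theorem actW_one {k t : ℕ} : actW (1 : Fin k × Fin t → A5) = id := by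
  funext l
  unfold actW
  have : wordMap (fun i => (((1 : Fin k × Fin t → A5) i : A5) : Equiv.Perm (Fin 5))) =
      (id : Vtx k t → Vtx k t) := rfl
  rw [this, Sym2.map_id]
  rfl

theorem actW_mul {k t : ℕ} (a b : Fin k × Fin t → A5) : actW (a * b) = actW a ∘ actW b := by
  funext l
  unfold actW
  have : wordMap (fun i => (((a * b) i : A5) : Equiv.Perm (Fin 5))) =
      wordMap (fun i => (a i : Equiv.Perm (Fin 5))) ∘
        (wordMap (fun i => (b i : Equiv.Perm (Fin 5))) : Vtx k t → Vtx k t) := rfl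
  rw [this, Sym2.map_comp]
  rfl

theorem wordMap_inj {k t : ℕ} (γ : Fin k × Fin t → Equiv.Perm (Fin 5)) :
    Function.Injective (wordMap γ) := by
  rintro ⟨i, x⟩ ⟨i', x'⟩ h
  have h1 : i = i' := congrArg Prod.fst h
  subst h1
  have h2 := congrArg Prod.snd h
  refine Prod.ext rfl ?_
  funext j
  exact (γ (i, j)).injective (congrFun h2 j)

theorem upperW {k t s : ℕ} (C : Net (Sym2 (Vtx k t) × Bool) Bool s) (hA : C.AndOr)
    (hC : DecidesParts C) : ∃ C' : Net (Sym2 (Vtx k t) × Bool) Bool (60 ^ (k * t) * s + 1),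
      C'.AndOr ∧ WordSym C' ∧ DecidesParts C' := by
  classical
  have h60 : Fintype.card (Fin k × Fin t → A5) = 60 ^ (k * t) := by
    rw [Fintype.card_fun, Fintype.card_prod, Fintype.card_fin, Fintype.card_fin, card_A5]
  have h := Pool.Agent.W366.SYUp.main (Sym2 (Vtx k t) × Bool) (Fin k × Fin t → A5) actW s C
    actW_one actW_mul hA
  rw [h60] at h
  obtain ⟨C', hA', hsym, hval⟩ := h
  refine ⟨C', hA', fun γ hγ => hsym (fun i => ⟨γ i, hγ i⟩), fun G hG => ?_⟩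
  rw [hval]
  have key : ∀ a : Fin k × Fin t → A5, litV G ∘ actW a =
      litV (G.comap (wordMap (fun i => (a i : Equiv.Perm (Fin 5))))) := by
    intro a
    funext l
    obtain ⟨z, b⟩ := l
    induction z using Sym2.ind with
    | h u v =>
      unfold litV actW
      simp only [Function.comp_apply, Sym2.map_mk, SimpleGraph.mem_edgeSet, SimpleGraph.comap_adj]
  constructor
  · rintro ⟨a, ha⟩
    rw [key] at ha
    obtain ⟨S, hS⟩ := (hC (G.comap (wordMap (fun i => (a i : Equiv.Perm (Fin 5)))))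
      (fun i x y => hG i _ _)).1 ha
    refine ⟨S.map ⟨_, wordMap_inj (fun i => (a i : Equiv.Perm (Fin 5)))⟩, ?_⟩
    rw [SimpleGraph.isNClique_iff] at hS ⊢
    refine ⟨?_, by rw [card_map]; exact hS.2⟩
    rw [SimpleGraph.isClique_iff] at hS ⊢
    intro x hx y hy hne
    rw [mem_coe, mem_map] at hx hy
    obtain ⟨x, hx, rfl⟩ := hx
    obtain ⟨y, hy, rfl⟩ := hy
    exact hS.1 (mem_coe.2 hx) (mem_coe.2 hy) (fun h => hne (by rw [h]))
  · rintro ⟨S, hS⟩
    refine ⟨1, ?_⟩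
    rw [actW_one, Function.comp_id, hC G hG]
    exact ⟨S, hS⟩

end Pool.Agent.X131.SY
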