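import Pool.Agent.X131.SY.Main

/-! Pairs of graphs which no symmetric circuit distinguishes, and reductions. -/

set_option autoImplicit false

namespace Pool.Agent.X131.SY

open Finset Pool.Agent.W893.SY

theorem pair :
    ∃ K : ℕ, 0 < K ∧ ∀ (n M κ : ℕ) (e : Fin M × Fin 5 ↪ Fin n) (Un : Finset (Fin n)),
      (∀ z ∈ Un, z ∉ Set.range e) → K * (κ + 1) < M →
      ∃ G₁ G₂ : SimpleGraph (Fin n), (∀ i p q, ¬ G₁.Adj (e (i, p)) (e (i, q))) ∧
        (∀ i p q, ¬ G₂.Adj (e (i, p)) (e (i, q))) ∧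
        (∃ S : Finset (Fin n), G₁.IsNClique (M + Un.card) S) ∧
        (¬ ∃ S : Finset (Fin n), G₂.IsNClique (M + Un.card) S) ∧
        ∀ (s : ℕ) (C : Net (Lit n) Bool s), s < 2 ^ (κ + 1) → BlockSym e C →
          C.val (lit G₁) C.out = C.val (lit G₂) C.out := by
  classical
  obtain ⟨K, hK, hexp⟩ := Pool.Agent.W45.SYExp.main 3 6 (by norm_num) (by norm_num)
  refine ⟨3600 * K, by positivity, ?_⟩
  intro n M κ e Un hUn hMbig
  have hM4 : 3600 ≤ M := by
    have : 3600 * 1 * 1 ≤ 3600 * K * (κ + 1) :=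
      Nat.mul_le_mul (Nat.mul_le_mul_left _ hK) (by omega)
    omega
  set N := (M - 1) / 3 with hN
  have hN0 : 0 < N := by omega
  have h3N : 3 * N < M := by omega
  have hMN : M ≤ 6 * N := by omega
  set r := 120 * (κ + 1) with hr
  have hKr : K * r ≤ N := by
    have h1 : 3600 * K * (κ + 1) = 30 * (K * r) := by rw [hr]; ring
    omega
  obtain ⟨ν, hν⟩ := hexp N M r hN0 hMN hKr
  obtain ⟨β, hβ⟩ := exists_unsat ν h3N
  have hL := locally_gr Pool.Agent.W324.SY.main (K := 4 * κ) ν hν β e Un hUn (by omega) (by omega)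
  refine ⟨gr ν 0 e Un, gr ν β e Un, gr_block ν 0 hUn, gr_block ν β hUn, clique_gr ν hUn, ?_, ?_⟩
  · rintro ⟨S, hS⟩
    exact no_clique_gr ν β (by omega) hβ S hS
  · intro s C hs hsym
    have hX := t_sup (Lit n) Bool A5 (commutator_alternatingGroup_eq_top (by simp)) M s κ C (actL e)
      (actL_one e) (actL_mul e) hsym.act hs
    exact core (actL_mul e) hL C κ hsym.act hX le_rfl

theorem pairW : ∃ K : ℕ, 0 < K ∧ ∀ k t κ : ℕ, 2 ≤ k → K * (κ + 1) < k * t →
    ∃ G₁ G₂ : SimpleGraph (Vtx k t), (∀ i x y, ¬ G₁.Adj (i, x) (i, y)) ∧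
      (∀ i x y, ¬ G₂.Adj (i, x) (i, y)) ∧ (∃ S : Finset (Vtx k t), G₁.IsNClique k S) ∧
      (¬ ∃ S : Finset (Vtx k t), G₂.IsNClique k S) ∧
      ∀ (s : ℕ) (C : Net (Sym2 (Vtx k t) × Bool) Bool s), 25 * (k * t) ^ 2 + s < 2 ^ (κ + 1) →
        WordSym C → C.val (litV G₁) C.out = C.val (litV G₂) C.out := by
  obtain ⟨K, hK, h⟩ := pair
  refine ⟨K, hK, fun k t κ hk hκ => ?_⟩
  obtain ⟨G₁, G₂, h1, h2, h3, h4, h5⟩ := h (k * t * 5) (k * t) κ (emb k t) ∅ (by simp) hκ
  refine ⟨wg G₁, wg G₂, wg_parts G₁, wg_parts G₂, clique_up G₁ h1 h3,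
    fun h => h4 (clique_down hk G₂ h), fun s C hs hsym => ?_⟩
  have h6 := h5 (NP k t + s) (lft C) (by
    have := card_NP k t
    omega) (lft_sym C hsym)
  have e1 : (lft C).val (lit G₁) (lft C).out = C.val (litV (wg G₁)) C.out := val_right C G₁ C.out
  have e2 : (lft C).val (lit G₂) (lft C).out = C.val (litV (wg G₂)) C.out := val_right C G₂ C.out
  rw [e1, e2] at h6
  exact h6

/-- The circuit, with one output gate for every `o`, is symmetric under even permutations of the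
letters at each position of the words of each part; the output gates are fixed. -/
def WordSymOut {k t s : ℕ} {O : Type} (C : Net (Sym2 (Vtx k t) × Bool) Bool s)
    (outs : O → Fin s) : Prop :=
  ∀ γ : Fin k × Fin t → Equiv.Perm (Fin 5), (∀ i, γ i ∈ alternatingGroup (Fin 5)) →
    ∃ α, C.IsAut (fun l => (l.1.map (wordMap γ), l.2)) α ∧ ∀ o, α (outs o) = outs o

/-- The circuit with the outputs `outs` reduces the problem, whether a graph without edges inside
the parts has a clique with one vertex in each part, to the language `L`. -/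
def ReducesTo {k t s : ℕ} {O : Type} (C : Net (Sym2 (Vtx k t) × Bool) Bool s)
    (outs : O → Fin s) (L : Set (O → Bool)) : Prop :=
  ∀ G : SimpleGraph (Vtx k t), (∀ i x y, ¬ G.Adj (i, x) (i, y)) →
    ((fun o => C.val (litV G) (outs o)) ∈ L ↔ ∃ S : Finset (Vtx k t), G.IsNClique k S)

theorem val_out {I R : Type} {s : ℕ} (C : Net I R s) (g : Fin s) (x : I → R) (h : Fin s) :
    ({ C with out := g } : Net I R s).val x h = C.val x h := by
  induction h using WellFoundedLT.induction with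
  | ind h ih =>
    rcases hc : C.gate h with l | ⟨w, f⟩
    · rw [C.val_inl _ hc, Net.val_inl ({ C with out := g } : Net I R s) x hc]
    · rw [C.val_inr _ hc, Net.val_inr ({ C with out := g } : Net I R s) x hc]
      congr 1
      apply Multiset.map_congr rfl
      intro p hp
      rw [ih p.2 (C.acyclic h w f hc p hp)]

theorem reduction : ∃ K : ℕ, 0 < K ∧ ∀ (k t s : ℕ) (C : Net (Sym2 (Vtx k t) × Bool) Bool s)
    (O : Type) (outs : O → Fin s) (L : Set (O → Bool)), 2 ≤ k → WordSymOut C outs →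
    ReducesTo C outs L → 5 ^ (k * t) ≤ (s + 1) ^ K := by
  obtain ⟨K, hK, h⟩ := pairW
  obtain ⟨K', hK', h3⟩ := arith K
  refine ⟨K', by omega, fun k t s C O outs L hk hsym hC => ?_⟩
  have hs : 1 ≤ s := by
    have := C.out.2
    omega
  refine h3 (k * t) s hs ?_
  by_contra hcon
  push Not at hcon
  obtain ⟨G₁, G₂, h1, h2, h4, h5, h6⟩ := h k t _ hk hcon
  have heq : (fun o => C.val (litV G₁) (outs o)) = fun o => C.val (litV G₂) (outs o) := by
    funext o
    have h7 := h6 s ({ C with out := outs o } : Net _ Bool s)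
      (Nat.lt_pow_succ_log_self (by norm_num) _) (fun γ hγ => by
        obtain ⟨α, hα, ho⟩ := hsym γ hγ
        exact ⟨α, hα.1, ho o⟩)
    exact (val_out C (outs o) (litV G₁) (outs o)).symm.trans
      (h7.trans (val_out C (outs o) (litV G₂) (outs o)))
  apply h5
  rw [← hC G₂ h2, ← heq, hC G₁ h1]
  exact h4

theorem final : ∃ K : ℕ, 0 < K ∧
    (∀ (n M s : ℕ) (e : Fin M × Fin 5 ↪ Fin n) (Un : Finset (Fin n)) (C : Net (Lit n) Bool s),
      (∀ z ∈ Un, z ∉ Set.range e) → BlockSym e C → DecidesBlocks e (M + Un.card) C →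
      5 ^ M ≤ (s + 1) ^ K) ∧
    (∀ (k t s : ℕ) (C : Net (Sym2 (Vtx k t) × Bool) Bool s) (O : Type) (outs : O → Fin s)
      (L : Set (O → Bool)), 2 ≤ k → WordSymOut C outs → ReducesTo C outs L →
      5 ^ (k * t) ≤ (s + 1) ^ K) := by
  obtain ⟨K₁, hK₁, h1, -⟩ := bounds
  obtain ⟨K₂, hK₂, h2⟩ := reduction
  refine ⟨K₁ + K₂, by omega, fun n M s e Un C hUn hsym hC => ?_,
    fun k t s C O outs L hk hsym hC => ?_⟩
  · exact (h1 n M s e Un C hUn hsym hC).trans (Nat.pow_le_pow_right (by omega) (by omega))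
  · exact (h2 k t s C O outs L hk hsym hC).trans (Nat.pow_le_pow_right (by omega) (by omega))

end Pool.Agent.X131.SY
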