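import Pool.Agent.X131.SY.Low

/-! Circuits for the clique problem on `k` parts, each consisting of the words of length `t` over five
letters, which are symmetric under the even permutations of the letters at every position. -/

set_option autoImplicit false

namespace Pool.Agent.X131.SY

open Finset Pool.Agent.W893.SY

/-- The vertices: `k` parts, each consisting of the `5 ^ t` words of length `t` over five letters. -/
abbrev Vtx (k t : ℕ) : Type := Fin k × (Fin t → Fin 5)

open Classical in
/-- The value of the literals on a graph: `(z, true)` says that `z` is an edge, `(z, false)` says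
that it is not. -/
noncomputable def litV {V : Type} (G : SimpleGraph V) (l : Sym2 V × Bool) : Bool :=
  decide (l.1 ∈ G.edgeSet ↔ l.2 = true)

/-- In the words of the part `i` the letters at position `j` are permuted by `γ (i, j)`. -/
def wordMap {k t : ℕ} (γ : Fin k × Fin t → Equiv.Perm (Fin 5)) (v : Vtx k t) : Vtx k t :=
  (v.1, fun j => γ (v.1, j) (v.2 j))

/-- The circuit is symmetric under even permutations of the letters at each position of the words of
each part. -/
def WordSym {k t s : ℕ} (C : Net (Sym2 (Vtx k t) × Bool) Bool s) : Prop :=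
  ∀ γ : Fin k × Fin t → Equiv.Perm (Fin 5), (∀ i, γ i ∈ alternatingGroup (Fin 5)) →
    ∃ α, C.IsAut (fun l => (l.1.map (wordMap γ), l.2)) α

/-- The circuit decides whether a graph without edges inside the parts has a clique with one vertex
in each part. -/
def DecidesParts {k t s : ℕ} (C : Net (Sym2 (Vtx k t) × Bool) Bool s) : Prop :=
  ∀ G : SimpleGraph (Vtx k t), (∀ i x y, ¬ G.Adj (i, x) (i, y)) →
    (C.val (litV G) C.out = true ↔ ∃ S : Finset (Vtx k t), G.IsNClique k S)

section

variable {k t s : ℕ}

/-- the vertices of the small graph -/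
def vx (i : Fin k) (j : Fin t) (p : Fin 5) : Fin (k * t * 5) :=
  finProdFinEquiv (finProdFinEquiv (i, j), p)

theorem vx_inj {i i' : Fin k} {j j' : Fin t} {p p' : Fin 5} (h : vx i j p = vx i' j' p') :
    i = i' ∧ j = j' ∧ p = p' := by
  unfold vx at h
  have h1 := finProdFinEquiv.injective h
  rw [Prod.mk.injEq] at h1
  have h2 := finProdFinEquiv.injective h1.1
  rw [Prod.mk.injEq] at h2
  exact ⟨h2.1, h2.2, h1.2⟩

/-- the pair `e` of different vertices of the small graph is covered by the pair `z` of words -/
def Cov (z : Sym2 (Vtx k t)) (e : Sym2 (Fin (k * t * 5))) : Prop :=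
  ¬ e.IsDiag ∧ ∀ a ∈ e, ∃ u ∈ z, ∃ j, a = vx u.1 j (u.2 j)

/-- both words are in the same part -/
def Same (z : Sym2 (Vtx k t)) : Prop := ∃ i, ∀ u ∈ z, u.1 = i

open Classical in
/-- the gate function which replaces a literal -/
noncomputable def fz (b : Bool) (z : Sym2 (Vtx k t)) (M : Multiset (ℕ × Bool)) : Bool :=
  decide ((¬ Same z ∧ false ∉ M.map Prod.snd) ↔ b = true)

/-- the number of pairs of vertices of the small graph -/
def NP (k t : ℕ) : ℕ := Fintype.card (Sym2 (Fin (k * t * 5)))

/-- numbering of the pairs -/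
noncomputable def en : Sym2 (Fin (k * t * 5)) ≃ Fin (NP k t) := Fintype.equivFin _

open Classical in
/-- the wires into the gate which replaces a literal -/
noncomputable def wires (s : ℕ) (z : Sym2 (Vtx k t)) : Multiset (ℕ × Fin (NP k t + s)) :=
  ((univ.filter (Cov z)).val).map (fun e => (0, Fin.castAdd s (en e)))

/-- The gates. -/
noncomputable def lgate (C : Net (Sym2 (Vtx k t) × Bool) Bool s) :
    Fin (NP k t + s) → Lit (k * t * 5) ⊕
      (Multiset (ℕ × Fin (NP k t + s)) × (Multiset (ℕ × Bool) → Bool)) :=
  Fin.addCases (fun i => Sum.inl (en.symm i, true))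
    (fun g => Sum.elim (fun l => Sum.inr (wires s l.1, fz l.2 l.1))
      (fun p => Sum.inr (p.1.map (Prod.map id (Fin.natAdd (NP k t))), p.2)) (C.gate g))

theorem lgate_left (C : Net (Sym2 (Vtx k t) × Bool) Bool s) (i : Fin (NP k t)) :
    lgate C (Fin.castAdd s i) = Sum.inl (en.symm i, true) := by
  unfold lgate
  rw [Fin.addCases_left]

theorem lgate_inl (C : Net (Sym2 (Vtx k t) × Bool) Bool s) {g : Fin s} {l : Sym2 (Vtx k t) × Bool}
    (h : C.gate g = Sum.inl l) :
    lgate C (Fin.natAdd (NP k t) g) = Sum.inr (wires s l.1, fz l.2 l.1) := by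
  unfold lgate
  rw [Fin.addCases_right, h]
  rfl

theorem lgate_inr (C : Net (Sym2 (Vtx k t) × Bool) Bool s) {g : Fin s}
    {w : Multiset (ℕ × Fin s)} {f : Multiset (ℕ × Bool) → Bool} (h : C.gate g = Sum.inr (w, f)) :
    lgate C (Fin.natAdd (NP k t) g) =
      Sum.inr (w.map (Prod.map id (Fin.natAdd (NP k t))), f) := by
  unfold lgate
  rw [Fin.addCases_right, h]
  rfl

/-- The circuit for the small graphs. -/
noncomputable def lft (C : Net (Sym2 (Vtx k t) × Bool) Bool s) :
    Net (Lit (k * t * 5)) Bool (NP k t + s) where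
  gate := lgate C
  acyclic := by
    intro g w f hg p hp
    induction g using Fin.addCases with
    | left i =>
      rw [lgate_left] at hg
      exact absurd hg (by simp)
    | right g =>
      rcases hc : C.gate g with l | ⟨w', f'⟩
      · rw [lgate_inl C hc] at hg
        obtain ⟨rfl, rfl⟩ := Prod.mk.inj (Sum.inr.inj hg)
        unfold wires at hp
        rw [Multiset.mem_map] at hp
        obtain ⟨e, _, rfl⟩ := hp
        rw [Fin.lt_def]
        simp only [Fin.val_castAdd, Fin.val_natAdd]
        have := (en e).2
        omega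
      · rw [lgate_inr C hc] at hg
        obtain ⟨rfl, rfl⟩ := Prod.mk.inj (Sum.inr.inj hg)
        rw [Multiset.mem_map] at hp
        obtain ⟨q, hq, rfl⟩ := hp
        have := C.acyclic g w' f' hc q hq
        rw [Fin.lt_def] at this ⊢
        simp only [Prod.map_snd, Fin.val_natAdd]
        omega
  out := Fin.natAdd (NP k t) C.out

/-- the graph on the words -/
def wg (G : SimpleGraph (Fin (k * t * 5))) : SimpleGraph (Vtx k t) where
  Adj u v := u.1 ≠ v.1 ∧ ∀ e, Cov s(u, v) e → e ∈ G.edgeSet
  symm := ⟨by
    rintro u v ⟨h1, h2⟩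
    refine ⟨h1.symm, ?_⟩
    rw [Sym2.eq_swap]
    exact h2⟩
  loopless := ⟨fun u h => h.1 rfl⟩

theorem wg_edge (G : SimpleGraph (Fin (k * t * 5))) (z : Sym2 (Vtx k t)) :
    z ∈ (wg G).edgeSet ↔ (¬ Same z ∧ ∀ e, Cov z e → e ∈ G.edgeSet) := by
  induction z using Sym2.ind with
  | h u v =>
    rw [SimpleGraph.mem_edgeSet]
    show (u.1 ≠ v.1 ∧ _) ↔ _
    refine and_congr_left fun _ => ?_
    apply not_congr
    constructor
    · intro h
      refine ⟨v.1, fun w hw => ?_⟩
      rw [Sym2.mem_iff] at hw
      rcases hw with rfl | rfl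
      · exact h
      · rfl
    · rintro ⟨i, hi⟩
      rw [hi u (by simp), hi v (by simp)]

theorem val_left (C : Net (Sym2 (Vtx k t) × Bool) Bool s) (x : Lit (k * t * 5) → Bool)
    (i : Fin (NP k t)) : (lft C).val x (Fin.castAdd s i) = x (en.symm i, true) :=
  (lft C).val_inl x (lgate_left C i)

theorem val_right (C : Net (Sym2 (Vtx k t) × Bool) Bool s) (G : SimpleGraph (Fin (k * t * 5)))
    (g : Fin s) : (lft C).val (lit G) (Fin.natAdd (NP k t) g) = C.val (litV (wg G)) g := by
  classical
  induction g using WellFoundedLT.induction with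
  | ind g ih =>
    rcases hc : C.gate g with l | ⟨w, f⟩
    · rw [C.val_inl _ hc, (lft C).val_inr _ (lgate_inl C hc)]
      unfold fz litV
      apply decide_eq_decide.2
      apply iff_congr _ Iff.rfl
      rw [wg_edge]
      refine and_congr_right fun _ => ?_
      unfold wires
      simp only [Multiset.map_map, Multiset.mem_map, Function.comp_apply, mem_val, mem_filter,
        mem_univ, true_and, not_exists, not_and]
      refine forall_congr' fun e => ?_
      refine imp_congr_right fun _ => ?_
      rw [val_left, Equiv.symm_apply_apply]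
      unfold lit
      simp
    · rw [C.val_inr _ hc, (lft C).val_inr _ (lgate_inr C hc), Multiset.map_map]
      congr 1
      apply Multiset.map_congr rfl
      intro p hp
      simp only [Function.comp_apply, Prod.map_fst, Prod.map_snd, id]
      rw [ih p.2 (C.acyclic g w f hc p hp)]

end

end Pool.Agent.X131.SY
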