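import Pool.Agent.W893.SY.Val

/-! The step SUP of the project SY: small supports for circuits that are symmetric under a power of a
perfect group. -/

set_option autoImplicit false

namespace Pool.Agent.X131.SY

open Finset Pool.Agent.W893.SY
open scoped commutatorElement

theorem bound {ι : Type} [Fintype ι] [LinearOrder ι] {P : Type} [Group P] (H : Subgroup (ι → P))
    {s κ : ℕ} (φ : (ι → P) → Fin s) (hφ : ∀ a b, φ a = φ b → a⁻¹ * b ∈ H) (hs : s < 2 ^ (κ + 1)) :
    ∃ J : Finset ι, J.card ≤ κ ∧ ∀ j, j ∉ J → ∀ p : P, ∃ h ∈ H, h j = p ∧ ∀ i, j < i → h i = 1 := by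
  classical
  let J : Finset ι := univ.filter fun j => ¬ ∀ p : P, ∃ h ∈ H, h j = p ∧ ∀ i, j < i → h i = 1
  refine ⟨J, ?_, fun j hj => ?_⟩
  · have hJ : ∀ j : ι, ∃ p : P, j ∈ J → ¬ ∃ h ∈ H, h j = p ∧ ∀ i, j < i → h i = 1 := by
      intro j
      by_cases hj : j ∈ J
      · have h1 := (mem_filter.1 hj).2
        push Not at h1
        obtain ⟨p, hp⟩ := h1
        refine ⟨p, fun _ => ?_⟩
        rintro ⟨h, hH, h2, h3⟩
        obtain ⟨i, hi, hi'⟩ := hp h hH h2
        exact hi' (h3 i hi)
      · exact ⟨1, fun h => absurd h hj⟩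
    choose p hp using hJ
    let a : Finset ι → (ι → P) := fun T i => if i ∈ T then p i else 1
    have hinj : Set.InjOn (fun T => φ (a T)) (J.powerset : Set (Finset ι)) := by
      intro T hT T' hT' heq
      rw [mem_coe, mem_powerset] at hT hT'
      by_contra hne
      have hD : (symmDiff T T').Nonempty := by
        rw [nonempty_iff_ne_empty]
        intro h0
        exact hne (symmDiff_eq_bot.1 h0)
      set j := (symmDiff T T').max' hD with hj
      have hjD : j ∈ symmDiff T T' := max'_mem _ _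
      have hgt : ∀ i, j < i → (i ∈ T ↔ i ∈ T') := by
        intro i hi
        by_contra hcon
        have : i ∈ symmDiff T T' := by
          rw [mem_symmDiff]
          tauto
        exact absurd (le_max' _ _ this) (not_le.2 hi)
      have hmem := hφ _ _ heq
      rw [mem_symmDiff] at hjD
      rcases hjD with ⟨h1, h2⟩ | ⟨h1, h2⟩
      · refine hp j (hT h1) ⟨((a T)⁻¹ * a T')⁻¹, H.inv_mem hmem, ?_, ?_⟩
        · simp [a, h1, h2]
        · intro i hi
          by_cases hiT : i ∈ T
          · simp [a, hiT, (hgt i hi).1 hiT]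
          · have h' : i ∉ T' := fun h => hiT ((hgt i hi).2 h)
            simp [a, hiT, h']
      · refine hp j (hT' h1) ⟨(a T)⁻¹ * a T', hmem, ?_, ?_⟩
        · simp [a, h1, h2]
        · intro i hi
          by_cases hiT : i ∈ T
          · simp [a, hiT, (hgt i hi).1 hiT]
          · have h' : i ∉ T' := fun h => hiT ((hgt i hi).2 h)
            simp [a, hiT, h']
    have h1 : (J.powerset).card ≤ (univ : Finset (Fin s)).card :=
      card_le_card_of_injOn _ (fun _ _ => mem_univ _) hinj
    rw [card_powerset, card_univ, Fintype.card_fin] at h1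
    have h2 := (Nat.pow_lt_pow_iff_right (by norm_num : 1 < 2)).1 (h1.trans_lt hs)
    omega
  · by_contra hcon
    exact hj (mem_filter.2 ⟨mem_univ _, hcon⟩)

theorem support {P : Type} [Group P] (hP : commutator P = ⊤) {m s κ : ℕ}
    (H : Subgroup (Fin m → P)) (φ : (Fin m → P) → Fin s) (hφ : ∀ a b, φ a = φ b → a⁻¹ * b ∈ H)
    (hs : s < 2 ^ (κ + 1)) :
    ∃ X : Finset (Fin m), X.card ≤ 2 * κ ∧ ∀ a : Fin m → P, (∀ i ∈ X, a i = 1) → a ∈ H := by
  classical
  obtain ⟨J₁, hJ₁, h1⟩ := bound H φ hφ hs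
  obtain ⟨J₂, hJ₂, h2⟩ := bound (ι := (Fin m)ᵒᵈ) (P := P) H φ hφ hs
  refine ⟨J₁ ∪ J₂.map OrderDual.ofDual.toEmbedding, ?_, ?_⟩
  · refine (card_union_le _ _).trans ?_
    rw [card_map]
    omega
  · intro a ha
    refine Subgroup.pi_mem_of_mulSingle_mem a fun j => ?_
    by_cases hj : j ∈ J₁ ∪ J₂.map OrderDual.ofDual.toEmbedding
    · rw [ha j hj, Pi.mulSingle_one]
      exact H.one_mem
    · rw [mem_union, not_or] at hj
      have hj2 : OrderDual.toDual j ∉ J₂ := fun h => hj.2 (mem_map.2 ⟨_, h, rfl⟩)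
      have hle : commutator P ≤ H.comap (MonoidHom.mulSingle (fun _ : Fin m => P) j) := by
        rw [commutator_def, Subgroup.commutator_le]
        intro p _ q _
        obtain ⟨u, hu, hup, hu1⟩ := h1 j hj.1 p
        obtain ⟨v, hv, hv2, hv3⟩ : ∃ v : Fin m → P, v ∈ H ∧ v j = q ∧ ∀ i, i < j → v i = 1 := by
          obtain ⟨v, hv, hvq, hv1⟩ := h2 (OrderDual.toDual j) hj2 q
          exact ⟨v, hv, hvq, fun i hi => hv1 (OrderDual.toDual i) (OrderDual.toDual_lt_toDual.2 hi)⟩
        rw [Subgroup.mem_comap]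
        have : MonoidHom.mulSingle (fun _ : Fin m => P) j ⁅p, q⁆ = ⁅u, v⁆ := by
          funext i
          rw [MonoidHom.mulSingle_apply]
          rcases lt_trichotomy i j with hij | rfl | hij
          · rw [Pi.mulSingle_eq_of_ne hij.ne]
            simp [commutatorElement_def, hv3 i hij]
          · rw [Pi.mulSingle_eq_same]
            simp [commutatorElement_def, hup, hv2]
          · rw [Pi.mulSingle_eq_of_ne hij.ne']
            simp [commutatorElement_def, hu1 i hij]
        rw [this]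
        exact H.mul_mem (H.mul_mem (H.mul_mem hu hv) (H.inv_mem hu)) (H.inv_mem hv)
      rw [hP] at hle
      exact hle (Subgroup.mem_top (a j))

/-- **SUP.** -/
theorem t_sup : S_sup := by
  intro I R P _ hP m s κ C act h1 hmul haut hs g
  classical
  have hinv : ∀ a, act a⁻¹ ∘ act a = id := fun a => by rw [← hmul, inv_mul_cancel, h1]
  let H : Subgroup (Fin m → P) :=
    { carrier := {a | ∃ α, C.IsAut (act a) α ∧ α g = g}
      mul_mem' := by
        rintro a b ⟨α, hα, hg⟩ ⟨β, hβ, hg'⟩
        refine ⟨α * β, ?_, by rw [Equiv.Perm.mul_apply, hg', hg]⟩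
        rw [hmul]
        exact hα.mul hβ
      one_mem' := ⟨1, by rw [h1]; exact Net.IsAut.one C, rfl⟩
      inv_mem' := by
        rintro a ⟨α, hα, hg⟩
        exact ⟨α⁻¹, hα.inv (hinv a), by rw [Equiv.Perm.inv_eq_iff_eq, hg]⟩ }
  choose α hα using haut
  obtain ⟨X, hX, hX'⟩ := support hP H (fun a => α a g) (fun a b hab => by
    refine ⟨(α a)⁻¹ * α b, ?_, ?_⟩
    · rw [hmul]
      exact ((hα a).inv (hinv a)).mul (hα b)
    · have hab' : α a g = α b g := hab
      rw [Equiv.Perm.mul_apply, ← hab']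
      exact Equiv.symm_apply_apply (α a) g) hs
  exact ⟨X, hX, fun a ha => hX' a ha⟩

end Pool.Agent.X131.SY
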